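import Mathlib

/-! Fusion, the infinite Ramsey theorem and a thinning lemma for families of bounded finitely
additive set functions indexed by increasing tuples. -/

namespace Pool.Agent.Lib.MP_4953ed_an

open Set Function Filter

theorem fusion (Ψ : ℕ → ℕ → Set ℕ → Prop)
    (hΨ : ∀ i t S S', S' ⊆ S → Ψ i t S → Ψ i t S')
    (step : ∀ i (S : Set ℕ), S.Infinite →
      ∃ t ∈ S, ∃ S' ⊆ S, S'.Infinite ∧ (∀ s ∈ S', t < s) ∧ Ψ i t S')
    (S₀ : Set ℕ) (h₀ : S₀.Infinite) :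
    ∃ σ : ℕ → ℕ, StrictMono σ ∧ (∀ i, σ i ∈ S₀) ∧ ∀ i, Ψ i (σ i) (σ '' Ioi i) := by
  choose! t ht S' hS' hinf hlt hP using step
  let F : ℕ → Set ℕ := fun n => Nat.rec S₀ (fun i S => S' i S) n
  have hF : ∀ n, (F n).Infinite := by
    intro n
    induction n with
    | zero => exact h₀
    | succ n ih => exact hinf n _ ih
  have hsub : ∀ n, F (n + 1) ⊆ F n := fun n => hS' n _ (hF n)
  have hanti : Antitone F := antitone_nat_of_succ_le hsub
  refine ⟨fun i => t i (F i),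
    strictMono_nat_of_lt_succ fun i => hlt i _ (hF i) _ (ht (i + 1) _ (hF (i + 1))),
    fun i => hanti (Nat.zero_le i) (ht i _ (hF i)), fun i => hΨ _ _ _ _ ?_ (hP i _ (hF i))⟩
  rintro _ ⟨j, hj, rfl⟩
  exact hanti (show i + 1 ≤ j from hj) (ht j _ (hF j))

/-- put `t` in front of the sequence `y` -/
def cons (t : ℕ) (y : ℕ → ℕ) : ℕ → ℕ
  | 0 => t
  | k + 1 => y k

/-- `c` depends only on the first `r` terms -/
def Dep {β : Type*} (r : ℕ) (c : (ℕ → ℕ) → β) : Prop :=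
  ∀ y y' : ℕ → ℕ, (∀ k < r, y k = y' k) → c y = c y'

/-- increasing sequences in `S` -/
def Inc (S : Set ℕ) (y : ℕ → ℕ) : Prop := StrictMono y ∧ ∀ k, y k ∈ S

theorem Inc.mono {S S' : Set ℕ} {y : ℕ → ℕ} (h : Inc S' y) (hS : S' ⊆ S) : Inc S y :=
  ⟨h.1, fun k => hS (h.2 k)⟩

theorem cons_tail (y : ℕ → ℕ) : cons (y 0) (fun k => y (k + 1)) = y := by
  funext k
  cases k <;> rfl

theorem Dep.cons {β : Type*} {r : ℕ} {c : (ℕ → ℕ) → β} (h : Dep (r + 1) c) (t : ℕ) :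
    Dep r (fun y => c (cons t y)) := by
  intro y y' hy
  apply h
  intro k hk
  cases k with
  | zero => rfl
  | succ k => exact hy k (by omega)

theorem mem_image_Ioi {σ : ℕ → ℕ} (hσ : StrictMono σ) {i u : ℕ} (hu : u ∈ range σ)
    (h : σ i < u) : u ∈ σ '' Ioi i := by
  obtain ⟨j, rfl⟩ := hu
  exact ⟨j, hσ.lt_iff_lt.1 h, rfl⟩

theorem Inc.tail {σ y : ℕ → ℕ} (hσ : StrictMono σ) (hy : Inc (range σ) y) {i : ℕ}
    (hi : σ i = y 0) : Inc (σ '' Ioi i) (fun k => y (k + 1)) := by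
  refine ⟨fun a b hab => hy.1 (by omega), fun k => mem_image_Ioi hσ (hy.2 _) ?_⟩
  rw [hi]
  exact hy.1 (by omega)

theorem infinite_inter_Ioi {S : Set ℕ} (hS : S.Infinite) (t : ℕ) : (S ∩ Ioi t).Infinite := by
  have : S ∩ Ioi t = S \ Iic t := by
    ext x
    simp
  rw [this]
  exact hS.sdiff (finite_Iic t)

theorem ramsey {κ : Type*} [Finite κ] (r : ℕ) : ∀ (c : (ℕ → ℕ) → κ), Dep r c →
    ∀ S : Set ℕ, S.Infinite → ∃ S' ⊆ S, S'.Infinite ∧ ∃ a, ∀ y, Inc S' y → c y = a := by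
  induction r with
  | zero =>
    intro c hc S hS
    exact ⟨S, subset_rfl, hS, c id, fun y _ => hc _ _ (by simp)⟩
  | succ r ih =>
    intro c hc S hS
    obtain ⟨σ, hσ, hσS, hΨ⟩ := fusion (fun _ t S' => ∃ a, ∀ y, Inc S' y → c (cons t y) = a)
      (fun _ _ _ _ h ⟨a, ha⟩ => ⟨a, fun y hy => ha y (hy.mono h)⟩)
      (fun _ S hS => by
        obtain ⟨t, ht⟩ := hS.nonempty
        obtain ⟨S', h1, h2, h3⟩ := ih _ (hc.cons t) _ (infinite_inter_Ioi hS t)
        exact ⟨t, ht, S', fun x hx => (h1 hx).1, h2, fun s hs => (h1 hs).2, h3⟩) S hS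
    choose col hcol using hΨ
    obtain ⟨a, ha⟩ := Finite.exists_infinite_fiber col
    have ha' : (col ⁻¹' {a}).Infinite := Set.infinite_coe_iff.1 ha
    refine ⟨σ '' (col ⁻¹' {a}), ?_, ha'.image hσ.injective.injOn, a, ?_⟩
    · rintro _ ⟨i, -, rfl⟩
      exact hσS i
    · intro y hy
      obtain ⟨i, hi, hi'⟩ := hy.2 0
      have := hcol i _ ((hy.mono (image_subset_range _ _)).tail hσ hi')
      rw [hi', cons_tail] at this
      rw [this]
      exact hi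

/-- finitely additive -/
def FAdd (ν : Set ℕ → ℝ) : Prop := ∀ U V : Set ℕ, Disjoint U V → ν (U ∪ V) = ν U + ν V

theorem FAdd.empty {ν : Set ℕ → ℝ} (h : FAdd ν) : ν ∅ = 0 := by
  have := h ∅ ∅ (by simp)
  simp only [union_self] at this
  linarith

theorem FAdd.sum {ν : Set ℕ → ℝ} (h : FAdd ν) (U : ℕ → Set ℕ)
    (hU : ∀ i j, i ≠ j → Disjoint (U i) (U j)) (s : Finset ℕ) :
    ν (⋃ i ∈ s, U i) = ∑ i ∈ s, ν (U i) := by
  induction s using Finset.induction_on with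
  | empty => simpa using h.empty
  | insert a s ha ih =>
    rw [Finset.set_biUnion_insert, Finset.sum_insert ha, h, ih]
    simp only [disjoint_iUnion_right]
    intro i hi
    exact hU _ _ (fun e => ha (e ▸ hi))

theorem FAdd.sum_abs {ν : Set ℕ → ℝ} (h : FAdd ν) {B : ℝ} (hB : ∀ U, |ν U| ≤ B) (U : ℕ → Set ℕ)
    (hU : ∀ i j, i ≠ j → Disjoint (U i) (U j)) (s : Finset ℕ) :
    ∑ i ∈ s, |ν (U i)| ≤ 2 * B := by
  rw [← Finset.sum_filter_add_sum_filter_not s (fun i => 0 ≤ ν (U i))]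
  have h1 : ∑ i ∈ s.filter (fun i => 0 ≤ ν (U i)), |ν (U i)| ≤ B := by
    rw [Finset.sum_congr rfl (fun i hi => abs_of_nonneg (Finset.mem_filter.1 hi).2), ← h.sum U hU]
    exact (le_abs_self _).trans (hB _)
  have h2 : ∑ i ∈ s.filter (fun i => ¬ 0 ≤ ν (U i)), |ν (U i)| ≤ B := by
    rw [Finset.sum_congr rfl (fun i hi => abs_of_neg (not_le.1 (Finset.mem_filter.1 hi).2)),
      Finset.sum_neg_distrib, ← h.sum U hU]
    exact (neg_le_abs _).trans (hB _)
  linarith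

theorem FAdd.exists_small {ν : Set ℕ → ℝ} (h : FAdd ν) {B : ℝ} (hB : ∀ U, |ν U| ≤ B)
    (U : ℕ → Set ℕ) (hU : ∀ i j, i ≠ j → Disjoint (U i) (U j)) (s : Finset ℕ) {ε : ℝ}
    (hs : 2 * B < s.card * ε) : ∃ i ∈ s, |ν (U i)| ≤ ε := by
  by_contra hcon
  push Not at hcon
  have h1 := h.sum_abs hB U hU s
  have h2 : ∑ _i ∈ s, ε ≤ ∑ i ∈ s, |ν (U i)| := Finset.sum_le_sum fun i hi => (hcon i hi).le
  rw [Finset.sum_const, nsmul_eq_mul] at h2
  linarith

theorem exists_card (B : ℝ) {ε : ℝ} (hε : 0 < ε) : ∃ M : ℕ, 2 * B < M * ε := by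
  obtain ⟨M, hM⟩ := exists_nat_gt (2 * B / ε)
  exact ⟨M, by rwa [div_lt_iff₀ hε] at hM⟩

theorem thin_one {ν : Set ℕ → ℝ} (h : FAdd ν) {B : ℝ} (hB : ∀ U, |ν U| ≤ B) {ε : ℝ} (hε : 0 < ε)
    {S : Set ℕ} (hS : S.Infinite) : ∃ S' ⊆ S, S'.Infinite ∧ ∀ U ⊆ S', |ν U| ≤ ε := by
  by_contra hcon
  push Not at hcon
  let e := hS.natEmbedding
  let Sx : ℕ → Set ℕ := fun i => range fun j => (e (Nat.pair i j) : ℕ)
  have hinj : ∀ i j i' j', (e (Nat.pair i j) : ℕ) = e (Nat.pair i' j') → i = i' ∧ j = j' := by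
    intro i j i' j' hh
    exact Nat.pair_eq_pair.1 (e.injective (Subtype.ext hh))
  have h1 : ∀ i, ∃ U ⊆ Sx i, ε < |ν U| := by
    intro i
    refine hcon (Sx i) ?_ (infinite_range_of_injective fun j j' hh => (hinj _ _ _ _ hh).2)
    rintro _ ⟨j, rfl⟩
    exact (e _).2
  choose U hU hU' using h1
  obtain ⟨M, hM⟩ := exists_card B hε
  obtain ⟨i, -, hi⟩ := h.exists_small hB U (fun i j hij => by
    refine Disjoint.mono (hU i) (hU j) ?_
    rw [Set.disjoint_left]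
    rintro _ ⟨a, rfl⟩ ⟨b, hb⟩
    exact hij (hinj _ _ _ _ hb).1.symm) (Finset.range M) (ε := ε) (by simpa using hM)
  exact absurd (hU' i) (not_lt.2 hi)

theorem geom_le {ε : ℝ} (hε : 0 < ε) (n : ℕ) : ∑ i ∈ Finset.range n, ε / 2 ^ (i + 1) ≤ ε := by
  have : ∑ i ∈ Finset.range n, ε / 2 ^ (i + 1) = ε - ε / 2 ^ n := by
    induction n with
    | zero => simp
    | succ n ih =>
      rw [Finset.sum_range_succ, ih]
      field_simp
      ring
  rw [this]
  have : 0 < ε / 2 ^ n := by positivity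
  linarith

theorem thin_below {r : ℕ} {ν : (ℕ → ℕ) → Set ℕ → ℝ} (hd : Dep r ν) (h : ∀ y, FAdd (ν y)) {B : ℝ}
    (hB : ∀ y U, |ν y U| ≤ B) {ε : ℝ} (hε : 0 < ε) {S : Set ℕ} (hS : S.Infinite) :
    ∃ S' ⊆ S, S'.Infinite ∧ ∀ y, Inc S' y → ∀ U ⊆ S', (∀ u ∈ U, u < y 0) → |ν y U| ≤ ε := by
  classical
  obtain ⟨σ, hσ, hσS, hΨ⟩ := fusion
    (fun i t S' => ∀ y, Inc S' y → |ν y {t}| ≤ ε / 2 ^ (i + 1))
    (fun _ _ _ _ h ha y hy => ha y (hy.mono h))
    (fun i S hS => by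
      have hδ : 0 < ε / 2 ^ (i + 1) := by positivity
      obtain ⟨M, hM⟩ := exists_card B hδ
      obtain ⟨C, hC, hCM⟩ := hS.exists_subset_card_eq M
      have hex : ∀ y, ∃ t : C, |ν y {(t : ℕ)}| ≤ ε / 2 ^ (i + 1) := by
        intro y
        obtain ⟨t, ht, ht'⟩ := (h y).exists_small (hB y) (fun t => {t})
          (fun a b hab => by simpa using hab) C (ε := ε / 2 ^ (i + 1)) (by rwa [hCM])
        exact ⟨⟨t, ht⟩, ht'⟩
      have : Nonempty C := ⟨(hex id).choose⟩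
      let pick : (Set ℕ → ℝ) → C := fun μ =>
        Classical.epsilon fun t : C => |μ {(t : ℕ)}| ≤ ε / 2 ^ (i + 1)
      obtain ⟨S', h1, h2, a, h3⟩ := ramsey r (fun y => pick (ν y))
        (fun y y' hy => congrArg pick (hd y y' hy)) _ (infinite_inter_Ioi hS (C.sup id))
      refine ⟨a, hC a.2, S', fun x hx => (h1 hx).1, h2, fun s hs => ?_, fun y hy => ?_⟩
      · exact lt_of_le_of_lt (Finset.le_sup (f := id) a.2) (h1 hs).2
      · rw [← h3 y hy]
        exact Classical.epsilon_spec (hex y)) S hS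
  refine ⟨range σ, range_subset_iff.2 hσS, infinite_range_of_injective hσ.injective, ?_⟩
  intro y hy U hU hlt
  obtain ⟨i₀, hi₀⟩ := hy.2 0
  have hUeq : U = ⋃ i ∈ (Finset.range i₀).filter (fun i => σ i ∈ U), {σ i} := by
    ext u
    simp only [Finset.mem_filter, Finset.mem_range, mem_iUnion, mem_singleton_iff, exists_prop]
    constructor
    · intro hu
      obtain ⟨i, rfl⟩ := hU hu
      exact ⟨i, ⟨hσ.lt_iff_lt.1 (hi₀ ▸ hlt _ hu), hu⟩, rfl⟩
    · rintro ⟨i, ⟨-, hi⟩, rfl⟩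
      exact hi
  rw [hUeq, (h y).sum (fun i => {σ i}) (fun a b hab => by simpa using hσ.injective.ne hab)]
  refine (Finset.abs_sum_le_sum_abs _ _).trans (le_trans ?_ (geom_le hε i₀))
  refine le_trans (Finset.sum_le_sum_of_subset_of_nonneg (Finset.filter_subset _ _)
    (fun _ _ _ => abs_nonneg _)) (Finset.sum_le_sum fun i hi => hΨ i y ⟨hy.1, fun k => ?_⟩)
  refine mem_image_Ioi hσ (hy.2 k) (lt_of_lt_of_le (hσ (Finset.mem_range.1 hi)) ?_)
  rw [hi₀]
  exact hy.1.monotone (Nat.zero_le k)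

theorem thin (r : ℕ) {B : ℝ} : ∀ (ν : (ℕ → ℕ) → Set ℕ → ℝ), Dep r ν → (∀ y, FAdd (ν y)) →
    (∀ y U, |ν y U| ≤ B) → ∀ ε : ℝ, 0 < ε → ∀ S : Set ℕ, S.Infinite →
    ∃ S' ⊆ S, S'.Infinite ∧ ∀ y, Inc S' y → ∀ U ⊆ S', (∀ k < r, y k ∉ U) → |ν y U| ≤ ε := by
  induction r with
  | zero =>
    intro ν hd h hB ε hε S hS
    obtain ⟨S', h1, h2, h3⟩ := thin_one (h id) (hB id) hε hS
    refine ⟨S', h1, h2, fun y _ U hU _ => ?_⟩
    rw [hd y id (by simp)]
    exact h3 U hU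
  | succ r ih =>
    intro ν hd h hB ε hε S hS
    obtain ⟨S₁, hS₁, hinf, hbelow⟩ := thin_below hd h hB (half_pos hε) hS
    obtain ⟨σ, hσ, hσS, hΨ⟩ := fusion
      (fun _ t S' => ∀ y, Inc S' y → ∀ U ⊆ S', (∀ k < r, y k ∉ U) → |ν (cons t y) U| ≤ ε / 2)
      (fun _ _ _ _ h ha y hy U hU => ha y (hy.mono h) U (hU.trans h))
      (fun _ S hS => by
        obtain ⟨t, ht⟩ := hS.nonempty
        obtain ⟨S', h1, h2, h3⟩ := ih _ (hd.cons t) (fun y => h _) (fun y => hB _) _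
          (half_pos hε) _ (infinite_inter_Ioi hS t)
        exact ⟨t, ht, S', fun x hx => (h1 hx).1, h2, fun s hs => (h1 hs).2, h3⟩) S₁ hinf
    have hr : range σ ⊆ S₁ := range_subset_iff.2 hσS
    refine ⟨range σ, hr.trans hS₁, infinite_range_of_injective hσ.injective, ?_⟩
    intro y hy U hU hav
    obtain ⟨i, hi⟩ := hy.2 0
    have hUeq : U = (U ∩ Iio (y 0)) ∪ (U ∩ Ioi (y 0)) := by
      ext u
      simp only [mem_union, mem_inter_iff, mem_Iio, mem_Ioi]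
      constructor
      · intro hu
        have : u ≠ y 0 := fun e => hav 0 (by omega) (e ▸ hu)
        rcases lt_or_gt_of_ne this with h | h
        · exact Or.inl ⟨hu, h⟩
        · exact Or.inr ⟨hu, h⟩
      · rintro (h | h) <;> exact h.1
    have h1 := hbelow y (hy.mono hr) (U ∩ Iio (y 0)) (inter_subset_left.trans (hU.trans hr))
      (fun u hu => hu.2)
    have h2 := hΨ i _ (hy.tail hσ hi) (U ∩ Ioi (y 0))
      (fun u hu => mem_image_Ioi hσ (hU hu.1) (hi ▸ hu.2))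
      (fun k hk hh => hav (k + 1) (by omega) hh.1)
    rw [hi, cons_tail] at h2
    rw [hUeq, h y _ _ (by
      rw [Set.disjoint_left]
      intro u hu hu'
      exact lt_asymm (mem_Iio.1 hu.2) (mem_Ioi.1 hu'.2))]
    refine (abs_add_le _ _).trans ?_
    linarith

/-- every residue class modulo `D` meets `S` in an infinite set -/
def Large (D : ℕ) (S : Set ℕ) : Prop := ∀ c < D, ∃ᶠ t in atTop, t ∈ S ∧ t % D = c

theorem large_univ (D : ℕ) : Large D univ := by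
  intro c hc
  rw [frequently_atTop]
  intro a
  refine ⟨D * a + c, ?_, trivial, ?_⟩
  · have : 1 * a ≤ D * a := Nat.mul_le_mul_right a (by omega)
    omega
  · rw [Nat.mul_add_mod, Nat.mod_eq_of_lt hc]

theorem thin_res {r D : ℕ} (hD : 0 < D) {B : ℝ} (ν : (ℕ → ℕ) → Set ℕ → ℝ) (hd : Dep r ν)
    (h : ∀ y, FAdd (ν y)) (hB : ∀ y U, |ν y U| ≤ B) {ε : ℝ} (hε : 0 < ε) {S : Set ℕ}
    (hS : Large D S) (j : ℕ) (pat : ℕ → ℕ) :
    ∃ S' ⊆ S, Large D S' ∧ ∀ z, Inc S' z → (∀ k < r, z k % D = pat k) →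
      ∀ U ⊆ S', (∀ u ∈ U, u % D = j) → (∀ k < r, z k ∉ U) → |ν z U| ≤ ε := by
  obtain ⟨τ, hτ, hτS⟩ := extraction_forall_of_frequently
    (P := fun i t => t ∈ S ∧ t % D = i % D) (fun i => hS _ (Nat.mod_lt _ hD))
  have hinj : Injective fun b => τ (D * b + j) := by
    intro a b hab
    have := hτ.injective hab
    exact Nat.eq_of_mul_eq_mul_left hD (by omega)
  obtain ⟨S', -, hinf, hthin⟩ := thin r (B := B)
    (fun b U => ν (fun k => τ (D * b k + pat k)) ((fun b => τ (D * b + j)) '' U))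
    (fun b b' hb => by
      funext U
      beta_reduce
      rw [hd (fun k => τ (D * b k + pat k)) (fun k => τ (D * b' k + pat k))
        (fun k hk => by rw [hb k hk])])
    (fun b U V hUV => by
      simp only [image_union]
      exact h _ _ _ ((disjoint_image_iff hinj).2 hUV))
    (fun b U => hB _ _) ε hε univ infinite_univ
  obtain ⟨ρ, hρ, hρS⟩ := extraction_of_frequently_atTop
    (P := fun t => t ∈ S') (Nat.frequently_atTop_iff_infinite.2 hinf)
  let τ' : ℕ → ℕ := fun i => τ (D * ρ i + i % D)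
  have hτ' : StrictMono τ' := by
    refine strictMono_nat_of_lt_succ fun i => hτ ?_
    have h1 : ρ i + 1 ≤ ρ (i + 1) := hρ (Nat.lt_succ_self i)
    have h2 := Nat.mul_le_mul_left D h1
    have h3 := Nat.mod_lt i hD
    rw [Nat.mul_add] at h2
    omega
  have hres : ∀ i, τ' i % D = i % D := fun i => by
    rw [(hτS _).2, Nat.mul_add_mod, Nat.mod_mod]
  refine ⟨range τ', range_subset_iff.2 fun i => (hτS _).1, fun c hc => ?_, ?_⟩
  · refine hτ'.tendsto_atTop.frequently ((large_univ D c hc).mono fun i hi => ⟨⟨i, rfl⟩, ?_⟩)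
    rw [hres, hi.2]
  · intro z hz hpat U hU hj hav
    choose i hi using hz.2
    have hi' : StrictMono i := fun a b hab => hτ'.lt_iff_lt.1 (by
      rw [hi, hi]; exact hz.1 hab)
    have := hthin (fun k => ρ (i k)) ⟨hρ.comp hi', fun k => hρS _⟩ (ρ '' (τ' ⁻¹' U))
      (by rintro _ ⟨a, -, rfl⟩; exact hρS a)
      (by
        rintro k hk ⟨a, ha, ha'⟩
        apply hav k hk
        rw [← hi, ← hρ.injective ha']
        exact ha)
    have e1 : ν z = ν (fun k => τ (D * ρ (i k) + pat k)) := hd _ _ fun k hk => by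
      rw [← hpat k hk, ← hi k, hres]
    have e2 : U = (fun b => τ (D * b + j)) '' (ρ '' (τ' ⁻¹' U)) := by
      ext u
      constructor
      · intro hu
        obtain ⟨a, rfl⟩ := hU hu
        refine ⟨ρ a, ⟨a, hu, rfl⟩, ?_⟩
        rw [← hj _ hu, hres]
      · rintro ⟨_, ⟨a, ha, rfl⟩, rfl⟩
        have := hj _ ha
        rw [hres] at this
        rw [← this]
        exact ha
    rw [e1, e2]
    exact this

end Pool.Agent.Lib.MP_4953ed_an
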