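import Pool.Agent.Lib.MP_4953ed_an.Ramsey

/-! The combinatorial obstruction. -/

namespace Pool.Agent.Lib.MP_4953ed_an

open Set Function Filter Topology

variable {K : Type*} [TopologicalSpace K]

/-- bounded, continuous in the points, additive in each of the first `n` set slots -/
structure GData (n : ℕ) (B : ℝ) (g : (ℕ → Set ℕ) → (ℕ → K) → ℝ) : Prop where
  bdd : ∀ T v, |g T v| ≤ B
  cont : ∀ T, Continuous (g T)
  depT : ∀ T T', (∀ k < n, T k = T' k) → g T = g T'
  depv : ∀ T v v', (∀ k ≤ n, v k = v' k) → g T v = g T v'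
  add : ∀ k < n, ∀ T U V, Disjoint U V → ∀ v,
    g (update T k (U ∪ V)) v = g (update T k U) v + g (update T k V) v

/-- the points among `z 0, …, z n` of class `k` -/
def cl (n : ℕ) (pat z : ℕ → ℕ) (k : ℕ) : Set ℕ := z '' {i | i ≤ n ∧ pat i = k}

/-- the first `k` slots localised -/
def mixed (n : ℕ) (pat : ℕ → ℕ) (k : ℕ) (T : ℕ → Set ℕ) (z : ℕ → ℕ) (j : ℕ) : Set ℕ :=
  if j < k then cl n pat z j else T j

theorem cl_congr {n : ℕ} (pat : ℕ → ℕ) {z z' : ℕ → ℕ} (h : ∀ k < n + 1, z k = z' k) :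
    cl n pat z = cl n pat z' := by
  funext k
  exact image_congr fun i hi => h i (Nat.lt_succ_of_le hi.1)

theorem loc {n : ℕ} {B : ℝ} {g : (ℕ → Set ℕ) → (ℕ → K) → ℝ} (hg : GData n B g) (ι : ℕ → K)
    (π : Bool → ℕ → ℕ) (hπ : ∀ a i, i ≤ n → π a i ≤ n) (pat : Bool → ℕ → ℕ) {ε : ℝ}
    (hε : 0 < ε) : ∀ m ≤ n, ∃ S, Large (n + 1) S ∧ ∃ T : ℕ → Set ℕ,
      (∀ j, ∀ t ∈ T j, t % (n + 1) = j) ∧ ∀ a z, Inc S z →
        (∀ k < n + 1, z k % (n + 1) = pat a k) →
        |g (mixed n (pat a) (n - m) T z) (ι ∘ z ∘ π a) - g (cl n (pat a) z) (ι ∘ z ∘ π a)|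
          ≤ m * ε := by
  intro m
  induction m with
  | zero =>
    intro _
    refine ⟨univ, large_univ _, fun _ => ∅, by simp, fun a z _ _ => ?_⟩
    rw [hg.depT (mixed n (pat a) (n - 0) (fun _ => ∅) z) (cl n (pat a) z)
      (fun k hk => by simp [mixed, hk])]
    simp
  | succ m ih =>
    intro hm
    obtain ⟨S, hS, T, hT, hest⟩ := ih (by omega)
    obtain ⟨k, hk⟩ : ∃ k, k = n - (m + 1) := ⟨_, rfl⟩
    have hk1 : n - m = k + 1 := by omega
    have hkn : k < n := by omega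
    rw [← hk]
    rw [hk1] at hest
    let ν : Bool → (ℕ → ℕ) → Set ℕ → ℝ := fun a z U =>
      g (update (mixed n (pat a) k T z) k U) (ι ∘ z ∘ π a)
    have hd : ∀ a, Dep (n + 1) (ν a) := by
      intro a z z' hz
      funext U
      have e : mixed n (pat a) k T z = mixed n (pat a) k T z' := by
        funext j
        simp only [mixed, cl_congr (pat a) hz]
      simp only [ν, e]
      exact hg.depv _ _ _ fun i hi => congrArg ι (hz _ (Nat.lt_succ_of_le (hπ a i hi)))
    have ha : ∀ a z, FAdd (ν a z) := fun a z U V hUV => hg.add k hkn _ U V hUV _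
    obtain ⟨S₁, h₁, hL₁, ht₁⟩ := thin_res (Nat.succ_pos n) (ν true) (hd true) (ha true)
      (fun _ _ => hg.bdd _ _) hε hS k (pat true)
    obtain ⟨S₂, h₂, hL₂, ht₂⟩ := thin_res (Nat.succ_pos n) (ν false) (hd false) (ha false)
      (fun _ _ => hg.bdd _ _) hε hL₁ k (pat false)
    have ht : ∀ a z, Inc S₂ z → (∀ k < n + 1, z k % (n + 1) = pat a k) → ∀ U ⊆ S₂,
        (∀ u ∈ U, u % (n + 1) = k) → (∀ k < n + 1, z k ∉ U) → |ν a z U| ≤ ε := by
      intro a z hz hp U hU hu hav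
      cases a
      · exact ht₂ z hz hp U hU hu hav
      · exact ht₁ z (hz.mono h₂) hp U (hU.trans h₂) hu hav
    refine ⟨S₂, hL₂, update T k {t ∈ S₂ | t % (n + 1) = k}, ?_, fun a z hz hp => ?_⟩
    · intro j t htj
      by_cases hj : j = k
      · subst hj
        rw [update_self] at htj
        exact htj.2
      · rw [update_of_ne hj] at htj
        exact hT j t htj
    · have e1 : mixed n (pat a) k (update T k {t ∈ S₂ | t % (n + 1) = k}) z =
          update (mixed n (pat a) k T z) k (cl n (pat a) z k ∪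
            ({t ∈ S₂ | t % (n + 1) = k} \ z '' Iic n)) := by
        funext j
        by_cases hj : j = k
        · subst hj
          simp only [mixed, lt_irrefl, if_false, update_self]
          ext t
          constructor
          · intro ht
            by_cases hz' : t ∈ z '' Iic n
            · obtain ⟨i, hi, rfl⟩ := hz'
              exact Or.inl ⟨i, ⟨hi, by rw [← hp i (Nat.lt_succ_of_le hi)]; exact ht.2⟩, rfl⟩
            · exact Or.inr ⟨ht, hz'⟩
          · rintro (⟨i, ⟨hi, hi'⟩, rfl⟩ | ht)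
            · exact ⟨hz.2 i, by rw [hp i (Nat.lt_succ_of_le hi), hi']⟩
            · exact ht.1
        · simp only [mixed, update_of_ne hj]
      have e2 : update (mixed n (pat a) k T z) k (cl n (pat a) z k) =
          mixed n (pat a) (k + 1) T z := by
        funext j
        by_cases hj : j = k
        · subst hj
          simp [mixed]
        · rw [update_of_ne hj]
          have : j < k + 1 ↔ j < k := by omega
          simp only [mixed, this]
      have h3 := ht a z hz hp ({t ∈ S₂ | t % (n + 1) = k} \ z '' Iic n) (fun u hu => hu.1.1)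
        (fun u hu => hu.1.2) (fun i hi hh => hh.2 ⟨i, Nat.lt_succ_iff.1 hi, rfl⟩)
      have h4 := hest a z (hz.mono (h₂.trans h₁)) hp
      rw [e1, hg.add k hkn _ _ _ (by
        rw [Set.disjoint_left]
        rintro _ ⟨i, hi, rfl⟩ hh
        exact hh.2 ⟨i, hi.1, rfl⟩), e2]
      simp only [ν] at h3
      rw [abs_le] at h3 h4 ⊢
      push_cast
      constructor <;> linarith [h3.1, h3.2, h4.1, h4.2]

theorem approx [CompactSpace K] (ι : ℕ → K) {D : ℕ} {S : Set ℕ} (hS : Large D S) :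
    ∃ q : ℕ → K, ∀ (pat : ℕ → ℕ), (∀ k, pat k < D) → ∀ π π' : ℕ → ℕ, (∀ i, π' (π i) = i) →
      ∀ G : (ℕ → K) → ℝ, Continuous G → ∀ ε : ℝ, 0 < ε →
      ∃ z, Inc S z ∧ (∀ k, z k % D = pat k) ∧
        |G (ι ∘ z ∘ π) - G (fun i => q (pat (π i)))| ≤ ε := by
  have hq : ∀ c, ∃ q : K, c < D → ∀ W ∈ 𝓝 q, ∃ᶠ t in atTop, (t ∈ S ∧ t % D = c) ∧ ι t ∈ W := by
    intro c
    by_cases hc : c < D
    · have : (atTop ⊓ 𝓟 {t | t ∈ S ∧ t % D = c}).NeBot := frequently_iff_neBot.1 (hS c hc)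
      obtain ⟨q, hq⟩ := exists_clusterPt_of_compactSpace
        (map ι (atTop ⊓ 𝓟 {t | t ∈ S ∧ t % D = c}))
      refine ⟨q, fun _ W hW => ?_⟩
      have h1 : ∃ᶠ x in map ι (atTop ⊓ 𝓟 {t | t ∈ S ∧ t % D = c}), x ∈ W :=
        (clusterPt_iff_frequently.1 hq) W hW
      rw [frequently_map, frequently_inf_principal] at h1
      exact h1
    · exact ⟨ι 0, fun h => absurd h hc⟩
  choose q hq using hq
  refine ⟨q, fun pat hpat π π' hπ G hG ε hε => ?_⟩
  have h1 : {v | dist (G v) (G (fun i => q (pat (π i)))) < ε} ∈ 𝓝 (fun i => q (pat (π i))) :=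
    hG.continuousAt.eventually (Metric.ball_mem_nhds _ hε)
  rw [nhds_pi, Filter.mem_pi] at h1
  obtain ⟨I, -, W, hW, hsub⟩ := h1
  obtain ⟨z, hz, hzP⟩ := extraction_forall_of_frequently
    (P := fun k t => (t ∈ S ∧ t % D = pat k) ∧ (π (π' k) = k → ι t ∈ W (π' k))) (fun k => by
      by_cases hk : π (π' k) = k
      · have := hW (π' k)
        rw [hk] at this
        exact (hq _ (hpat k) _ this).mono fun t ht => ⟨ht.1, fun _ => ht.2⟩
      · exact (hS _ (hpat k)).mono fun t ht => ⟨ht, fun h => absurd h hk⟩)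
  refine ⟨z, ⟨hz, fun k => (hzP k).1.1⟩, fun k => (hzP k).1.2, ?_⟩
  have : ι ∘ z ∘ π ∈ I.pi W := fun i _ => by
    have := (hzP (π i)).2 (by rw [hπ])
    rwa [hπ] at this
  exact le_of_lt (hsub this)

/-- atoms omitting position `m` -/
def om (m : ℕ) (y : ℕ → ℕ) (k : ℕ) : Set ℕ := {y (if k < m then k else k + 1)}

/-- rotation of the positions `0, …, n` -/
def rot (n i : ℕ) : ℕ := if i = 0 then n else if i ≤ n then i - 1 else i

/-- inverse rotation -/
def rot' (n k : ℕ) : ℕ := if k = n then 0 else if k < n then k + 1 else k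

theorem rot'_rot (n i : ℕ) : rot' n (rot n i) = i := by
  unfold rot rot'
  split_ifs <;> omega

theorem rot_le {n i : ℕ} (h : i ≤ n) : rot n i ≤ n := by
  unfold rot
  split_ifs <;> omega

theorem rot_succ {n k : ℕ} (h : k < n) : rot n (k + 1) = k := by
  simp [rot, Nat.succ_le_of_lt h]

theorem mixed_zero (n : ℕ) (pat : ℕ → ℕ) (T : ℕ → Set ℕ) (z : ℕ → ℕ) : mixed n pat 0 T z = T := by
  funext j
  simp [mixed]

theorem stageA [CompactSpace K] {n : ℕ} {B : ℝ} {g : (ℕ → Set ℕ) → (ℕ → K) → ℝ}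
    (hg : GData n B g) (ι : ℕ → K)
    (hk : ∀ T : ℕ → Set ℕ, (∀ k, k + 1 < n → Disjoint (T k) (T (k + 1))) →
      ∀ k < n, ∀ v : ℕ → K, v k = v (k + 1) → g T v = 0)
    {ε : ℝ} (hε : 0 < ε) {m : ℕ} (hm : m < n) :
    ∃ z, StrictMono z ∧ |g (om m z) (ι ∘ z) + g (om (m + 1) z) (ι ∘ z)| ≤ (n + 1) * ε := by
  let pat : ℕ → ℕ := fun i => (if i ≤ m then i else i - 1) % (n + 1)
  obtain ⟨S, hS, T, hT, hest⟩ := loc hg ι (fun _ => id) (fun _ _ h => h) (fun _ => pat) hε n le_rfl
  obtain ⟨q, hq⟩ := approx ι hS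
  obtain ⟨z, hz, hzp, hz'⟩ := hq pat (fun _ => Nat.mod_lt _ (Nat.succ_pos n)) id id
    (fun _ => rfl) (g T) (hg.cont T) ε hε
  have h1 := hest true z hz (fun k _ => hzp k)
  rw [Nat.sub_self, mixed_zero] at h1
  have h0 : g T (fun i => q (pat (id i))) = 0 := by
    refine hk T (fun k _ => ?_) m hm _ (by simp [pat])
    rw [Set.disjoint_left]
    intro t h1 h2
    have := hT _ _ h1
    have := hT _ _ h2
    omega
  have hpat : ∀ i ≤ n, pat i = if i ≤ m then i else i - 1 := fun i hi =>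
    Nat.mod_eq_of_lt (by split_ifs <;> omega)
  have e1 : g (cl n pat z) = g (update (om m z) m ({z (m + 1)} ∪ {z m})) := by
    refine hg.depT _ _ fun k hk => ?_
    by_cases hkm : k = m
    · subst hkm
      rw [update_self]
      ext t
      constructor
      · rintro ⟨i, ⟨hi, hi'⟩, rfl⟩
        rw [hpat i hi] at hi'
        have : i = k + 1 ∨ i = k := by split_ifs at hi' <;> omega
        rcases this with rfl | rfl <;> simp
      · rintro (rfl | rfl)
        · exact ⟨k + 1, ⟨by omega, by rw [hpat _ (by omega)]; simp⟩, rfl⟩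
        · exact ⟨k, ⟨by omega, by rw [hpat _ (by omega)]; simp⟩, rfl⟩
    · rw [update_of_ne hkm]
      ext t
      constructor
      · rintro ⟨i, ⟨hi, hi'⟩, rfl⟩
        rw [hpat i hi] at hi'
        have : i = if k < m then k else k + 1 := by split_ifs at hi' ⊢ <;> omega
        rw [this]
        rfl
      · rintro rfl
        have h5 : (if k < m then k else k + 1) ≤ n := by split_ifs <;> omega
        refine ⟨_, ⟨h5, ?_⟩, rfl⟩
        rw [hpat _ h5]
        split_ifs <;> omega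
  have e2 : update (om m z) m {z (m + 1)} = om m z := by
    rw [update_eq_self_iff]
    simp [om]
  have e3 : update (om m z) m {z m} = om (m + 1) z := by
    funext k
    by_cases hkm : k = m
    · subst hkm
      simp [om]
    · rw [update_of_ne hkm]
      have : k < m + 1 ↔ k < m := by omega
      simp only [om, this]
  rw [e1, hg.add m hm _ _ _ (by simpa using hz.1.injective.ne (by omega)), e2, e3] at h1
  rw [h0] at hz'
  refine ⟨z, hz.1, ?_⟩
  simp only [comp_id] at h1 hz'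
  rw [abs_le] at h1 hz' ⊢
  constructor <;> linarith [h1.1, h1.2, hz'.1, hz'.2]

theorem stageB [CompactSpace K] {n : ℕ} {B : ℝ} {g : (ℕ → Set ℕ) → (ℕ → K) → ℝ}
    (hg : GData n B g) (ι : ℕ → K) {ε : ℝ} (hε : 0 < ε) :
    ∃ y z, StrictMono y ∧ StrictMono z ∧
      |g (om 0 y) (ι ∘ y) - g (om 0 (z ∘ rot n)) (ι ∘ z ∘ rot n)| ≤ (2 * n + 2) * ε := by
  let π : Bool → ℕ → ℕ := fun a => Bool.rec (rot n) id a
  let pat : Bool → ℕ → ℕ := fun a => Bool.rec (fun k => k % (n + 1))
    (fun i => rot n i % (n + 1)) a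
  obtain ⟨S, hS, T, hT, hest⟩ := loc hg ι π (fun a i h => by
    cases a
    · exact rot_le h
    · exact h) pat hε n le_rfl
  obtain ⟨q, hq⟩ := approx ι hS
  obtain ⟨y, hy, hyp, hy'⟩ := hq (pat true) (fun _ => Nat.mod_lt _ (Nat.succ_pos n)) id id
    (fun _ => rfl) (g T) (hg.cont T) ε hε
  obtain ⟨z, hz, hzp, hz'⟩ := hq (pat false) (fun _ => Nat.mod_lt _ (Nat.succ_pos n)) (rot n)
    (rot' n) (rot'_rot n) (g T) (hg.cont T) ε hε
  have h1 := hest true y hy (fun k _ => hyp k)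
  have h2 := hest false z hz (fun k _ => hzp k)
  rw [Nat.sub_self, mixed_zero] at h1 h2
  have e1 : g (cl n (pat true) y) = g (om 0 y) := by
    refine hg.depT _ _ fun k hk => ?_
    ext t
    constructor
    · rintro ⟨i, ⟨hi, hi'⟩, rfl⟩
      have h3 : rot n i % (n + 1) = k := hi'
      rw [Nat.mod_eq_of_lt (Nat.lt_succ_of_le (rot_le hi))] at h3
      have : i = k + 1 := by
        unfold rot at h3
        split_ifs at h3 <;> omega
      rw [this]
      simp [om]
    · intro ht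
      refine ⟨k + 1, ⟨hk, ?_⟩, by simpa [om, eq_comm] using ht⟩
      change rot n (k + 1) % (n + 1) = k
      rw [Nat.mod_eq_of_lt (Nat.lt_succ_of_le (rot_le hk)), rot_succ hk]
  have e2 : g (cl n (pat false) z) = g (om 0 (z ∘ rot n)) := by
    refine hg.depT _ _ fun k hk => ?_
    have h4 : rot n (k + 1) = k := rot_succ hk
    ext t
    constructor
    · rintro ⟨i, ⟨hi, hi'⟩, rfl⟩
      have h3 : i % (n + 1) = k := hi'
      rw [Nat.mod_eq_of_lt (Nat.lt_succ_of_le hi)] at h3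
      simp [om, h3, h4]
    · intro ht
      refine ⟨k, ⟨hk.le, Nat.mod_eq_of_lt (by omega)⟩, by simpa [om, h4, eq_comm] using ht⟩
  rw [e1] at h1
  rw [e2] at h2
  refine ⟨y, z, hy.1, hz.1, ?_⟩
  change |g T (ι ∘ y) - g (om 0 y) (ι ∘ y)| ≤ n * ε at h1
  change |g T (ι ∘ z ∘ rot n) - g (om 0 (z ∘ rot n)) (ι ∘ z ∘ rot n)| ≤ n * ε at h2
  change |g T (ι ∘ y) - g T (fun i => q (rot n i % (n + 1)))| ≤ ε at hy'
  change |g T (ι ∘ z ∘ rot n) - g T (fun i => q (rot n i % (n + 1)))| ≤ ε at hz'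
  rw [abs_le] at h1 h2 hy' hz' ⊢
  constructor <;> linarith [h1.1, h1.2, h2.1, h2.2, hy'.1, hy'.2, hz'.1, hz'.2]

end Pool.Agent.Lib.MP_4953ed_an
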