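import Pool.Agent.Lib.MP_4953ed_an.Homol

/-! No finite resolution. -/

namespace Pool.Agent.Lib.MP_4953ed_an

open Set Function Filter Topology

/-- The data extracted from a projective resolution (of left modules, with `R = 0`, or of
bimodules). -/
structure ResData (K : Type) [TopologicalSpace K] [CompactSpace K] (p : K) where
  P : ℕ → Type
  [ng : ∀ n, NormedAddCommGroup (P n)]
  [ns : ∀ n, NormedSpace ℂ (P n)]
  L : ∀ n, C(K, ℂ) →L[ℂ] P n →L[ℂ] P n
  R : ∀ n, C(K, ℂ) →L[ℂ] P n →L[ℂ] P n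
  ρ : C(K, ℂ) → ℂ
  d : ∀ n, P (n + 1) →L[ℂ] P n
  s : ∀ n, P n →L[ℂ] P (n + 1)
  η : P 0 →L[ℂ] ℂ
  x0 : P 0
  hρ : ∀ a, a p = 0 → ρ a = 0
  LL : ∀ n a b u, a * b = 0 → L n b (L n a u) = 0
  RR : ∀ n a b u, a * b = 0 → R n a (R n b u) = 0
  LR : ∀ n a b u, L n a (R n b u) = R n b (L n a u)
  dL : ∀ n a u, d n (L (n + 1) a u) = L n a (d n u)
  dR : ∀ n a u, d n (R (n + 1) a u) = R n a (d n u)
  dd : ∀ n u, d n (d (n + 1) u) = 0
  ηL : ∀ a u, η (L 0 a u) = a p * η u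
  ηR : ∀ a u, η (R 0 a u) = ρ a * η u
  ηd : ∀ u, η (d 0 u) = 0
  ηx : η x0 = 1
  hs0 : ∀ a, a p = 0 → d 0 (s 0 (L 0 a x0 - R 0 a x0)) = L 0 a x0 - R 0 a x0
  hs : ∀ n u, d n u = 0 → d (n + 1) (s (n + 1) u) = u
  lift : ∀ n, LiftE ρ (L n) (R n)

attribute [instance] ResData.ng ResData.ns

namespace ResData

variable {K : Type} [TopologicalSpace K] [CompactSpace K] {p : K} (D : ResData K p)

/-- invariant of the chain map -/
def Inv (n : ℕ) (f : D.P n →L[ℂ] EE K) : Prop :=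
  (∀ a u, f (D.L n a u) = lE a (f u)) ∧ (∀ a u, f (D.R n a u) = D.ρ a • f u) ∧
    (∀ u, f u ∈ QQ p n) ∧ ∀ u, Cyc p n (f (D.d n u))

theorem exists_f0 : ∃ f : D.P 0 →L[ℂ] EE K, D.Inv 0 f ∧ ∀ u v, f u (p, v) = D.η u := by
  let W : Submodule ℂ (D.P 0 × EE K) :=
    { carrier := {w | w.2 ∈ QQ p 0 ∧ ∀ v, w.2 (p, v) = D.η w.1}
      add_mem' := fun {a b} ha hb => ⟨add_mem ha.1 hb.1, fun v => by simp [ha.2 v, hb.2 v]⟩
      zero_mem' := ⟨zero_mem _, fun v => by simp⟩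
      smul_mem' := fun c {a} ha => ⟨Submodule.smul_mem _ c ha.1, fun v => by simp [ha.2 v]⟩ }
  have hW : IsClosed (W : Set (D.P 0 × EE K)) := by
    have : (W : Set (D.P 0 × EE K)) = Prod.snd ⁻¹' (QQ p 0 : Set (EE K)) ∩
        ⋂ v, {w | w.2 (p, v) = D.η w.1} := by
      ext w
      simp only [mem_inter_iff, mem_iInter]
      rfl
    rw [this]
    exact ((isClosed_QQ p 0).preimage continuous_snd).inter
      (isClosed_iInter fun v => isClosed_eq (by fun_prop) (by fun_prop))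
  obtain ⟨f, h1, h2, h3⟩ := D.lift 0 W hW
    (fun a w hw => ⟨lE_mem a hw.1, fun v => by simp [D.ηL, hw.2 v]⟩)
    (fun a w hw => ⟨Submodule.smul_mem _ _ hw.1, fun v => by simp [D.ηR, hw.2 v]⟩)
    (D.η.smulRight (1 : EE K))
    (fun u => ⟨⟨fun _ _ _ _ => rfl, fun _ h => absurd h (Nat.not_lt_zero _)⟩, fun v => by simp⟩)
  refine ⟨f, ⟨h2, h3, fun u => (h1 u).1, fun u v => ?_⟩, fun u v => (h1 u).2 v⟩
  exact ((h1 _).2 v).trans (D.ηd u)

theorem exists_fstep (n : ℕ) (f : D.P n →L[ℂ] EE K) (hf : D.Inv n f) :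
    ∃ f' : D.P (n + 1) →L[ℂ] EE K, D.Inv (n + 1) f' ∧ ∀ u, dE n (f' u) = f (D.d n u) := by
  let W : Submodule ℂ (D.P (n + 1) × EE K) :=
    { carrier := {w | w.2 ∈ QQ p (n + 1) ∧ dE n w.2 = f (D.d n w.1)}
      add_mem' := fun {a b} ha hb => ⟨add_mem ha.1 hb.1, by simp [ha.2, hb.2]⟩
      zero_mem' := ⟨zero_mem _, by simp⟩
      smul_mem' := fun c {a} ha => ⟨Submodule.smul_mem _ c ha.1, by simp [ha.2]⟩ }
  have hW : IsClosed (W : Set (D.P (n + 1) × EE K)) :=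
    ((isClosed_QQ p (n + 1)).preimage continuous_snd).inter
      (isClosed_eq (by fun_prop) (by fun_prop))
  obtain ⟨f', h1, h2, h3⟩ := D.lift (n + 1) W hW
    (fun a w hw => ⟨lE_mem a hw.1, by
      change dE n (lE a w.2) = f (D.d n (D.L (n + 1) a w.1))
      rw [dE_lE, hw.2, D.dL, hf.1]⟩)
    (fun a w hw => ⟨Submodule.smul_mem _ _ hw.1, by
      change dE n (D.ρ a • w.2) = f (D.d n (D.R (n + 1) a w.1))
      rw [map_smul, hw.2, D.dR, hf.2.1]⟩)
    ((hE n).comp (f.comp (D.d n)))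
    (fun u => ⟨hE_mem (hf.2.2.1 _) (hf.2.2.2 u), dE_hE (hf.2.2.1 _)⟩)
  refine ⟨f', ⟨h2, h3, fun u => (h1 u).1, fun u => cyc_of_dE ?_⟩, fun u => (h1 u).2⟩
  have := (h1 (D.d (n + 1) u)).2
  simp only [D.dd, map_zero] at this
  exact this

theorem exists_chain : ∃ f : ∀ n, D.P n →L[ℂ] EE K, (∀ u v, f 0 u (p, v) = D.η u) ∧
    ∀ n, D.Inv n (f n) ∧ ∀ u, dE n (f (n + 1) u) = f n (D.d n u) := by
  obtain ⟨f0, h0, h0'⟩ := D.exists_f0
  obtain ⟨f, hf, hf'⟩ := exists_seq_dep (α := fun n => D.P n →L[ℂ] EE K) D.Inv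
    (fun n f f' => ∀ u, dE n (f' u) = f (D.d n u)) f0 h0 D.exists_fstep
  exact ⟨f, by rw [hf]; exact h0', hf'⟩

/-- the multilinear chains -/
noncomputable def gam : ∀ n, (ℕ → C(K, ℂ)) → D.P n
  | 0 => fun _ => D.x0
  | n + 1 => fun a => D.s n (D.L n (a n) (gam n a) +
      (-1 : ℂ) ^ (n + 1) • D.R n (a 0) (gam n (fun k => a (k + 1))))

theorem good_gam (n : ℕ) : Good n (D.gam n) := by
  induction n with
  | zero => exact Good.const _
  | succ n ih => exact ((ih.last (D.L n)).plus ((ih.first (D.R n)).smul _)).clm (D.s n)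

theorem d_gam (n : ℕ) : ∀ a : ℕ → C(K, ℂ), Orth p (n + 1) a → D.d n (D.gam (n + 1) a) =
    D.L n (a n) (D.gam n a) + (-1 : ℂ) ^ (n + 1) • D.R n (a 0) (D.gam n (fun k => a (k + 1))) := by
  induction n with
  | zero =>
    intro a ha
    have := D.hs0 (a 0) (ha.1 0 (by omega))
    simpa [gam, sub_eq_add_neg] using this
  | succ n ih =>
    intro a ha
    apply D.hs
    rw [map_add, map_smul, D.dL, D.dR, ih a ha.mono, ih _ ha.shift]
    simp only [map_add, map_smul]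
    rw [D.LL n (a n) (a (n + 1)) _ (ha.2 n (by omega)),
      D.RR n (a 0) (a (0 + 1)) _ (ha.2 0 (by omega)), D.LR, pow_succ (-1 : ℂ) (n + 1)]
    simp

/-- the corrected cycles -/
noncomputable def ww (f : ∀ n, D.P n →L[ℂ] EE K) : ℕ → (ℕ → C(K, ℂ)) → EE K
  | 0 => fun a => psi 0 a - f 0 (D.gam 0 a)
  | n + 1 => fun a => psi (n + 1) a - f (n + 1) (D.gam (n + 1) a) - lE (a n) (hE n (ww f n a))

theorem good_ww (f : ∀ n, D.P n →L[ℂ] EE K) (n : ℕ) : Good n (D.ww f n) := by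
  induction n with
  | zero => exact (good_psi 0).minus ((D.good_gam 0).clm _)
  | succ n ih =>
    exact ((good_psi (n + 1)).minus ((D.good_gam (n + 1)).clm _)).minus ((ih.clm (hE n)).last lE)

theorem ww_spec (f : ∀ n, D.P n →L[ℂ] EE K) (h0 : ∀ u v, f 0 u (p, v) = D.η u)
    (hf : ∀ n, D.Inv n (f n) ∧ ∀ u, dE n (f (n + 1) u) = f n (D.d n u)) (n : ℕ) :
    ∀ a : ℕ → C(K, ℂ), Orth p n a → D.ww f n a ∈ QQ p n ∧ Cyc p n (D.ww f n a) := by
  induction n with
  | zero =>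
    intro a ha
    refine ⟨sub_mem (psi_mem ha) ((hf 0).1.2.2.1 _), fun v => ?_⟩
    simp [ww, psi, pre, h0, gam, D.ηx]
  | succ n ih =>
    intro a ha
    obtain ⟨h1, h2⟩ := ih a ha.mono
    refine ⟨sub_mem (sub_mem (psi_mem ha) ((hf _).1.2.2.1 _)) (lE_mem _ (hE_mem h1 h2)),
      cyc_of_dE ?_⟩
    simp only [ww, map_sub]
    rw [dE_psi, (hf n).2, D.d_gam n a ha, dE_lE, dE_hE h1, map_add, map_smul, (hf n).1.1,
      (hf n).1.2.1, D.hρ _ (ha.1 0 (by omega)), zero_smul, smul_zero, add_zero]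
    cases n with
    | zero => simp [ww]
    | succ n =>
      simp only [ww, map_sub]
      rw [lE_lE (ha.2 n (by omega))]
      simp

theorem not_subsingleton (ι : ℕ → K) (𝒰 : Ultrafilter ℕ) (hfree : (𝒰 : Filter ℕ) ≤ atTop)
    (hp : Tendsto ι 𝒰 (𝓝 p)) (χ : Set ℕ → C(K, ℂ))
    (hχ1 : ∀ t, χ {t} (ι t) = 1) (hχp : ∀ T, T ∉ 𝒰 → χ T p = 0)
    (hχa : ∀ U V, Disjoint U V → χ (U ∪ V) = χ U + χ V)
    (hχm : ∀ U V, Disjoint U V → χ U * χ V = 0) (hχn : ∀ T, ‖χ T‖ ≤ 1) (N : ℕ) :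
    ¬ Subsingleton (D.P (N + 1)) := by
  intro hsub
  obtain ⟨f, h0, hf⟩ := D.exists_chain
  have hgood := D.good_ww f (N + 1)
  obtain ⟨C, hC⟩ := hgood.bdd
  let tr : (ℕ → K) → ℕ → K := fun v k => if k < N + 1 then v k else p
  have htr : Continuous tr := continuous_pi fun k => by
    by_cases hk : k < N + 1
    · simp only [tr, hk, if_true]
      exact continuous_apply k
    · simp only [tr, hk, if_false]
      exact continuous_const
  have horth : ∀ T, OrthT 𝒰 (N + 1) T → Orth p (N + 1) (fun k => χ (T k)) := fun T hT =>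
    ⟨fun k hk => hχp _ (hT.1 k hk), fun k hk => hχm _ _ (hT.2 k hk)⟩
  refine no_g ι 𝒰 hfree p hp (n := N + 1) (B := C)
    (g := fun T v => (D.ww f (N + 1) (fun k => χ (T k)) (v (N + 1), tr v)).re)
    ⟨fun T v => ?_, fun T => ?_, fun T T' h => ?_, fun T v v' h => ?_, fun k hk T U V hUV v => ?_⟩
    (fun T hT v hv => ?_) (fun T hT k hk v hv => ?_) (fun y hy v hv hv' => ?_)
  · exact (Complex.abs_re_le_norm _).trans
      ((ContinuousMap.norm_coe_le_norm _ _).trans (hC _ fun k _ => hχn _))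
  · exact Complex.continuous_re.comp
      ((map_continuous _).comp ((continuous_apply (N + 1)).prodMk htr))
  · funext v
    rw [hgood.dep (fun k => χ (T k)) (fun k => χ (T' k)) fun k hk => by rw [h k hk]]
  · have : tr v = tr v' := by
      funext k
      by_cases hk : k < N + 1
      · simp only [tr, hk, if_true]
        exact h k hk.le
      · simp only [tr, hk, if_false]
    rw [this, h (N + 1) le_rfl]
  · have : ∀ W : Set ℕ, (fun j => χ (update T k W j)) = update (fun j => χ (T j)) k (χ W) := by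
      intro W
      funext j
      exact apply_update (fun _ A => χ A) T k W j
    simp only [this, hχa U V hUV]
    rw [hgood.add k hk]
    simp
  · rw [(D.ww_spec f h0 hf _ _ (horth T hT)).1.2 0 (by omega) _ _ (by simp [tr, pre, hv])]
    simp
  · by_cases hkN : k = N
    · subst hkN
      have := (D.ww_spec f h0 hf _ _ (horth T hT)).2 (tr v)
      simp only [pre, tr, Nat.lt_succ_self, if_true] at this
      rw [← hv, this]
      simp
    · have h1 : k + 1 < N + 1 := by omega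
      rw [(D.ww_spec f h0 hf _ _ (horth T hT)).1.2 (k + 1) h1 _ _ (by
        simp only [tr, pre, hk, h1, if_true, hv])]
      simp
  · have h1 : D.gam (N + 1) (fun k => χ {y k}) = 0 := Subsingleton.elim _ _
    have h2 : χ {y N} p = 0 := hχp _ (hy.1 N (by omega))
    simp only [ww, h1, map_zero, sub_zero, ContinuousMap.sub_apply, lE_apply, hv', h2, zero_mul,
      psi_apply]
    rw [Finset.prod_eq_one fun k hk => ?_]
    · simp
    · have hk' := Finset.mem_range.1 hk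
      simp only [tr, hk', if_true, hv k hk', hχ1]

end ResData

end Pool.Agent.Lib.MP_4953ed_an
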