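import Pool.Agent.Lib.MP_4953ed_an.Restr

/-! The Stone-Cech remainder of a locally compact space that is not pseudocompact. -/

namespace Pool.Agent.Lib.MP_4953ed_an

open Set Function Filter Topology

/-- The corona (Stone-Cech remainder) `βX \ X`. -/
def Corona (X : Type) [TopologicalSpace X] : Type :=
  {q : StoneCech X // q ∉ Set.range (stoneCechUnit : X → StoneCech X)}

variable {X : Type} [TopologicalSpace X]

instance : TopologicalSpace (Corona X) := instTopologicalSpaceSubtype

theorem exists_ext {f : X → ℝ} (hc : Continuous f) (h01 : ∀ x, f x ∈ Icc (0 : ℝ) 1) :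
    ∃ F : C(StoneCech X, ℝ), (∀ x, F (stoneCechUnit x) = f x) ∧ ∀ q, F q ∈ Icc (0 : ℝ) 1 := by
  have hc' : Continuous fun x => (⟨f x, h01 x⟩ : unitInterval) := hc.subtype_mk _
  refine ⟨⟨fun q => (stoneCechExtend hc' q).1,
    continuous_subtype_val.comp (continuous_stoneCechExtend hc')⟩, fun x => ?_,
    fun q => (stoneCechExtend hc' q).2⟩
  simp [stoneCechExtend_stoneCechUnit]

theorem isOpen_range_unit [LocallyCompactSpace X] [T2Space X] :
    IsOpen (range (stoneCechUnit : X → StoneCech X)) := by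
  rw [isOpen_iff_forall_mem_open]
  rintro _ ⟨x, rfl⟩
  obtain ⟨C, hC, hx⟩ := exists_compact_mem_nhds x
  obtain ⟨f, f1, f0, -, f01⟩ := exists_continuous_one_zero_of_isCompact
    (isCompact_singleton (x := x)) (isOpen_interior (s := C)).isClosed_compl
    (by simpa using mem_interior_iff_mem_nhds.2 hx)
  obtain ⟨F, hF, -⟩ := exists_ext f.continuous f01
  have ho : IsOpen {q | 0 < F q} := isOpen_lt continuous_const F.continuous
  refine ⟨{q | 0 < F q}, fun q hq => ?_, ho, ?_⟩
  · have h1 : q ∈ closure ({q | 0 < F q} ∩ range stoneCechUnit) :=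
      ho.inter_closure ⟨hq, denseRange_stoneCechUnit q⟩
    have h2 : {q | 0 < F q} ∩ range stoneCechUnit ⊆ stoneCechUnit '' C := by
      rintro _ ⟨h, y, rfl⟩
      refine ⟨y, interior_subset (s := C) ?_, rfl⟩
      by_contra hy
      have h3 : f y = 0 := f0 hy
      have h4 : 0 < F (stoneCechUnit y) := h
      rw [hF, h3] at h4
      exact lt_irrefl _ h4
    exact image_subset_range _ _
      ((hC.image continuous_stoneCechUnit).isClosed.closure_subset_iff.2 h2 h1)
  · have h3 : f x = 1 := f1 rfl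
    show 0 < F (stoneCechUnit x)
    rw [hF, h3]
    exact one_pos

instance [LocallyCompactSpace X] [T2Space X] : CompactSpace (Corona X) :=
  isCompact_iff_compactSpace.mp (isOpen_range_unit (X := X)).isClosed_compl.isCompact

/-- Sums of disjoint tents on the line. -/
theorem exists_tents (c : ℕ → ℝ) (hc : ∀ k, c k + 2 < c (k + 1)) :
    ∃ g : Set ℕ → ℝ → ℝ, (∀ S, Continuous (g S)) ∧
      (∀ t, ∃ k, ∃ v ∈ Icc (0 : ℝ) 1, ∀ S, (k ∈ S → g S t = v) ∧ (k ∉ S → g S t = 0)) ∧
      ∀ S k, (k ∈ S → g S (c k) = 1) ∧ (k ∉ S → g S (c k) = 0) := by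
  classical
  have gap : ∀ k l, k < l → c k + 2 < c l := by
    intro k l h
    induction l, h using Nat.le_induction with
    | base => exact hc k
    | succ l _ ih => linarith [hc l]
  have grow : ∀ k : ℕ, c 0 + k ≤ c k := by
    intro k
    induction k with
    | zero => simp
    | succ k ih => push_cast; linarith [hc k]
  let b : ℕ → ℝ → ℝ := fun k t => max 0 (1 - |t - c k|)
  have near : ∀ k t, b k t ≠ 0 → |t - c k| < 1 := by
    intro k t h
    by_contra h1
    exact h (max_eq_left (by linarith [not_lt.1 h1]))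
  have uniq : ∀ t k l, b k t ≠ 0 → l ≠ k → b l t = 0 := by
    intro t k l h hne
    by_contra h'
    have a1 := abs_lt.1 (near k t h)
    have a2 := abs_lt.1 (near l t h')
    rcases lt_or_gt_of_ne hne with h1 | h1
    · linarith [gap l k h1, a1.1, a2.2]
    · linarith [gap k l h1, a1.2, a2.1]
  have single : ∀ t k, (∀ l, l ≠ k → b l t = 0) → ∀ S : Set ℕ,
      (∑ᶠ l, if l ∈ S then b l t else 0) = if k ∈ S then b k t else 0 := by
    intro t k h S
    refine finsum_eq_single _ k fun l hl => ?_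
    rw [h l hl, ite_self]
  refine ⟨fun S t => ∑ᶠ l, if l ∈ S then b l t else 0, fun S => ?_, fun t => ?_, fun S k => ?_⟩
  · refine continuous_finsum (fun l => ?_) fun t => ⟨Iio (t + 1), Iio_mem_nhds (by linarith), ?_⟩
    · split_ifs
      · fun_prop
      · exact continuous_const
    · obtain ⟨N, hN⟩ := exists_nat_gt (t + 2 - c 0)
      refine (finite_Iio N).subset ?_
      rintro l ⟨s, hs, hst⟩
      have h1 : b l s ≠ 0 := fun h => hs (by simp [h])
      have h2 := (abs_lt.1 (near l s h1)).1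
      have h3 : s < t + 1 := hst
      have h4 : (l : ℝ) < N := by linarith [grow l]
      exact_mod_cast h4
  · have h01 : ∀ k, b k t ∈ Icc (0 : ℝ) 1 := fun k =>
      ⟨le_max_left _ _, max_le zero_le_one (by linarith [abs_nonneg (t - c k)])⟩
    obtain ⟨k, hk⟩ : ∃ k, ∀ l, l ≠ k → b l t = 0 := by
      by_cases h : ∃ k, b k t ≠ 0
      · obtain ⟨k, hk⟩ := h
        exact ⟨k, fun l hl => uniq t k l hk hl⟩
      · push Not at h
        exact ⟨0, fun l _ => h l⟩
    refine ⟨k, b k t, h01 k, fun S => ⟨fun h => ?_, fun h => ?_⟩⟩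
    · simp only [single t k hk S, if_pos h]
    · simp only [single t k hk S, if_neg h]
  · have h1 : b k (c k) = 1 := by simp [b]
    have h2 := single (c k) k (fun l hl => uniq _ k l (by rw [h1]; exact one_ne_zero) hl) S
    exact ⟨fun h => by simp only [h2, if_pos h, h1], fun h => by simp only [h2, if_neg h]⟩

theorem ResData.not_subsingleton_corona [LocallyCompactSpace X] [T2Space X] {h : X → ℝ}
    (hh : Continuous h) (hu : ∀ M : ℝ, ∃ x, M < |h x|) :
    ∃ p : Corona X, ∀ (D : ResData (Corona X) p) (N : ℕ), ¬ Subsingleton (D.P (N + 1)) := by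
  classical
  choose nx hnx using hu
  let x : ℕ → X := fun k => Nat.rec (nx 0) (fun _ y => nx (|h y| + 2)) k
  let c : ℕ → ℝ := fun k => |h (x k)|
  have hc : ∀ k, c k + 2 < c (k + 1) := fun k => hnx _
  have grow : ∀ k : ℕ, (k : ℝ) ≤ c k := by
    intro k
    induction k with
    | zero => simpa using abs_nonneg _
    | succ k ih => push_cast; linarith [hc k]
  obtain ⟨g, g1, g2, g3⟩ := exists_tents c hc
  have g01 : ∀ S t, g S t ∈ Icc (0 : ℝ) 1 := by
    intro S t
    obtain ⟨k, v, hv, hk⟩ := g2 t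
    by_cases hS : k ∈ S
    · rw [(hk S).1 hS]; exact hv
    · rw [(hk S).2 hS]; exact ⟨le_rfl, zero_le_one⟩
  choose F hF hF01 using fun T : Set ℕ => exists_ext
    (f := fun y => g {k | (Nat.unpair k).1 ∈ T} |h y|) ((g1 _).comp hh.abs) fun y => g01 _ _
  obtain ⟨G, hG, -⟩ := exists_ext (f := fun y => (1 + |h y|)⁻¹)
    ((continuous_const.add hh.abs).inv₀ fun y => (by positivity : (1 : ℝ) + |h y| ≠ 0))
    fun y => ⟨by positivity, inv_le_one_of_one_le₀ (by linarith [abs_nonneg (h y)])⟩
  let 𝒰 : Ultrafilter ℕ := Ultrafilter.of atTop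
  have h𝒰 : (𝒰 : Filter ℕ) ≤ atTop := Ultrafilter.of_le _
  have hq : ∀ t : ℕ, ∃ q : StoneCech X,
      Tendsto (fun k => stoneCechUnit (x (Nat.pair t k))) 𝒰 (𝓝 q) := fun t => by
    obtain ⟨q, -, hq⟩ := isCompact_univ.ultrafilter_le_nhds
      (𝒰.map fun k => stoneCechUnit (x (Nat.pair t k))) (by simp)
    exact ⟨q, hq⟩
  choose q hq using hq
  have hqn : ∀ t, q t ∉ range (stoneCechUnit : X → StoneCech X) := by
    rintro t ⟨y, hy⟩
    have h1 := (G.continuous.tendsto (q t)).comp (hq t)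
    have h2 : Tendsto (fun k => (1 + c (Nat.pair t k))⁻¹) atTop (𝓝 0) := by
      refine tendsto_inv_atTop_zero.comp (tendsto_atTop_mono (fun k => ?_)
        tendsto_natCast_atTop_atTop)
      have a1 : (k : ℝ) ≤ (Nat.pair t k : ℕ) := by exact_mod_cast Nat.right_le_pair t k
      linarith [grow (Nat.pair t k)]
    have h3 : G (q t) = 0 := tendsto_nhds_unique h1 ((h2.mono_left h𝒰).congr fun k => (hG _).symm)
    rw [← hy, hG] at h3
    exact (by positivity : (1 + |h y|)⁻¹ ≠ 0) h3
  let ι : ℕ → Corona X := fun t => ⟨q t, hqn t⟩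
  have hFq : ∀ T t, F T (q t) = if t ∈ T then 1 else 0 := by
    intro T t
    refine tendsto_nhds_unique (((F T).continuous.tendsto (q t)).comp (hq t))
      (tendsto_const_nhds.congr fun k => ?_)
    have a := g3 {k | (Nat.unpair k).1 ∈ T} (Nat.pair t k)
    simp only [mem_ofPred_eq, Nat.unpair_pair] at a
    rw [comp_apply, hF]
    split_ifs with ht
    · exact (a.1 ht).symm
    · exact (a.2 ht).symm
  let χ : Set ℕ → C(Corona X, ℂ) := fun T => ⟨fun z => (F T z.1 : ℂ),
    Complex.continuous_ofReal.comp ((F T).continuous.comp continuous_subtype_val)⟩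
  have hχ : ∀ T z, χ T z = (F T z.1 : ℂ) := fun _ _ => rfl
  have hext : ∀ A B : C(StoneCech X, ℝ), (∀ y, A (stoneCechUnit y) = B (stoneCechUnit y)) →
      ∀ z, A z = B z := fun A B e =>
    congrFun (denseRange_stoneCechUnit.equalizer A.continuous B.continuous (funext e))
  obtain ⟨p, -, hp⟩ := isCompact_univ.ultrafilter_le_nhds (𝒰.map ι) (by simp)
  have hp' : Tendsto ι 𝒰 (𝓝 p) := hp
  refine ⟨p, fun D N => D.not_subsingleton ι 𝒰 h𝒰 hp' χ (fun t => ?_) (fun T hT => ?_)
    (fun U V hUV => ?_) (fun U V hUV => ?_) (fun T => ?_) N⟩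
  · rw [hχ, hFq]
    simp
  · refine tendsto_nhds_unique (((χ T).continuous.tendsto p).comp hp')
      (tendsto_const_nhds.congr' ?_)
    filter_upwards [Ultrafilter.compl_mem_iff_notMem.2 hT] with t ht
    have ht' : t ∉ T := ht
    rw [comp_apply, hχ, hFq, if_neg ht']
    simp
  · ext z
    have := hext (F (U ∪ V)) (F U + F V) (fun y => ?_) z.1
    · rw [ContinuousMap.add_apply, hχ, hχ, hχ, this]
      simp
    · obtain ⟨k, v, -, hk⟩ := g2 |h y|
      have d : (Nat.unpair k).1 ∈ U → (Nat.unpair k).1 ∉ V := fun a => disjoint_left.1 hUV a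
      rw [ContinuousMap.add_apply, hF, hF, hF]
      by_cases h1 : (Nat.unpair k).1 ∈ U
      · rw [(hk _).1 (Or.inl h1), (hk {k | (Nat.unpair k).1 ∈ U}).1 h1,
          (hk {k | (Nat.unpair k).1 ∈ V}).2 (d h1), add_zero]
      · by_cases h2 : (Nat.unpair k).1 ∈ V
        · rw [(hk _).1 (Or.inr h2), (hk {k | (Nat.unpair k).1 ∈ U}).2 h1,
            (hk {k | (Nat.unpair k).1 ∈ V}).1 h2, zero_add]
        · rw [(hk _).2 (fun a => a.elim h1 h2), (hk {k | (Nat.unpair k).1 ∈ U}).2 h1,
            (hk {k | (Nat.unpair k).1 ∈ V}).2 h2, add_zero]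
  · ext z
    have := hext (F U * F V) 0 (fun y => ?_) z.1
    · rw [ContinuousMap.mul_apply] at this
      rw [ContinuousMap.mul_apply, hχ, hχ, ← Complex.ofReal_mul, this]
      simp
    · obtain ⟨k, v, -, hk⟩ := g2 |h y|
      have d : (Nat.unpair k).1 ∈ U → (Nat.unpair k).1 ∉ V := fun a => disjoint_left.1 hUV a
      rw [ContinuousMap.mul_apply, hF, hF, ContinuousMap.zero_apply]
      by_cases h1 : (Nat.unpair k).1 ∈ U
      · rw [(hk {k | (Nat.unpair k).1 ∈ V}).2 (d h1), mul_zero]
      · rw [(hk {k | (Nat.unpair k).1 ∈ U}).2 h1, zero_mul]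
  · rw [ContinuousMap.norm_le _ zero_le_one]
    intro z
    rw [hχ, Complex.norm_real, Real.norm_eq_abs, abs_of_nonneg (hF01 T _).1]
    exact (hF01 T _).2

end Pool.Agent.Lib.MP_4953ed_an
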