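import Pool.Agent.Lib.MP_4953ed_an.NoG

/-! The comparison complex and the multilinear cocycles. -/

namespace Pool.Agent.Lib.MP_4953ed_an

open Set Function Filter Topology

section good

variable {A : Type*} [NormedAddCommGroup A] [NormedSpace ℂ A]
  {X : Type*} [NormedAddCommGroup X] [NormedSpace ℂ X]
  {Y : Type*} [NormedAddCommGroup Y] [NormedSpace ℂ Y]

/-- depends on the first `n` slots, additive in each of them, bounded on the unit ball -/
structure Good (n : ℕ) (F : (ℕ → A) → X) : Prop where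
  dep : ∀ a b : ℕ → A, (∀ k < n, a k = b k) → F a = F b
  add : ∀ k < n, ∀ (a : ℕ → A) (b c : A),
    F (update a k (b + c)) = F (update a k b) + F (update a k c)
  bdd : ∃ C : ℝ, ∀ a : ℕ → A, (∀ k < n, ‖a k‖ ≤ 1) → ‖F a‖ ≤ C

omit [NormedSpace ℂ A] [NormedSpace ℂ X] in
theorem Good.const (x : X) : Good 0 (fun _ : ℕ → A => x) :=
  ⟨fun _ _ _ => rfl, fun _ h => absurd h (Nat.not_lt_zero _), ⟨‖x‖, fun _ _ => le_rfl⟩⟩

omit [NormedSpace ℂ A] in
theorem Good.clm {n : ℕ} {F : (ℕ → A) → X} (h : Good n F) (T : X →L[ℂ] Y) :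
    Good n (fun a => T (F a)) where
  dep a b hab := by rw [h.dep a b hab]
  add k hk a b c := by rw [h.add k hk, map_add]
  bdd := by
    obtain ⟨C, hC⟩ := h.bdd
    exact ⟨‖T‖ * C, fun a ha => (T.le_opNorm _).trans
      (mul_le_mul_of_nonneg_left (hC a ha) (norm_nonneg _))⟩

omit [NormedSpace ℂ A] [NormedSpace ℂ X] in
theorem Good.plus {n : ℕ} {F G : (ℕ → A) → X} (h : Good n F) (h' : Good n G) :
    Good n (fun a => F a + G a) where
  dep a b hab := by rw [h.dep a b hab, h'.dep a b hab]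
  add k hk a b c := by
    rw [h.add k hk, h'.add k hk]
    abel
  bdd := by
    obtain ⟨C, hC⟩ := h.bdd
    obtain ⟨C', hC'⟩ := h'.bdd
    exact ⟨C + C', fun a ha => (norm_add_le _ _).trans (add_le_add (hC a ha) (hC' a ha))⟩

omit [NormedSpace ℂ A] in
theorem Good.smul {n : ℕ} {F : (ℕ → A) → X} (h : Good n F) (t : ℂ) :
    Good n (fun a => t • F a) :=
  h.clm (t • ContinuousLinearMap.id ℂ X)

omit [NormedSpace ℂ A] in
theorem Good.minus {n : ℕ} {F G : (ℕ → A) → X} (h : Good n F) (h' : Good n G) :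
    Good n (fun a => F a - G a) := by
  have := h.plus (h'.smul (-1))
  simpa [sub_eq_add_neg] using this

theorem bil_bound (L : A →L[ℂ] X →L[ℂ] Y) {a : A} {x : X} {C : ℝ} (ha : ‖a‖ ≤ 1) (hx : ‖x‖ ≤ C) :
    ‖L a x‖ ≤ ‖L‖ * C := by
  refine (L.le_opNorm₂ a x).trans ?_
  have h1 : ‖L‖ * ‖a‖ ≤ ‖L‖ := mul_le_of_le_one_right L.opNorm_nonneg ha
  exact mul_le_mul h1 hx (norm_nonneg _) L.opNorm_nonneg

theorem Good.last {n : ℕ} {F : (ℕ → A) → X} (h : Good n F) (L : A →L[ℂ] X →L[ℂ] Y) :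
    Good (n + 1) (fun a => L (a n) (F a)) where
  dep a b hab := by rw [hab n (by omega), h.dep a b fun k hk => hab k (by omega)]
  add k hk a b c := by
    by_cases hkn : k = n
    · subst hkn
      have : ∀ t, F (update a k t) = F a := fun t => h.dep _ _ fun j hj => update_of_ne hj.ne _ _
      simp [this]
    · have hkn' : n ≠ k := Ne.symm hkn
      rw [update_of_ne hkn', update_of_ne hkn', update_of_ne hkn', h.add k (by omega), map_add]
  bdd := by
    obtain ⟨C, hC⟩ := h.bdd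
    exact ⟨‖L‖ * C, fun a ha => bil_bound L (ha n (by omega)) (hC a fun k hk => ha k (by omega))⟩

theorem Good.first {n : ℕ} {F : (ℕ → A) → X} (h : Good n F) (L : A →L[ℂ] X →L[ℂ] Y) :
    Good (n + 1) (fun a => L (a 0) (F (fun k => a (k + 1)))) where
  dep a b hab := by
    rw [hab 0 (by omega), h.dep (fun k => a (k + 1)) (fun k => b (k + 1))
      fun k hk => hab (k + 1) (by omega)]
  add k hk a b c := by
    cases k with
    | zero => simp
    | succ k =>
      have : ∀ t, (fun j => update a (k + 1) t (j + 1)) = update (fun j => a (j + 1)) k t := by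
        intro t
        funext j
        by_cases hj : j = k
        · subst hj
          simp
        · rw [update_of_ne hj, update_of_ne (by omega)]
      have h0 : (0 : ℕ) ≠ k + 1 := by omega
      rw [update_of_ne h0, update_of_ne h0, update_of_ne h0, this, this, this,
        h.add k (by omega), map_add]
  bdd := by
    obtain ⟨C, hC⟩ := h.bdd
    exact ⟨‖L‖ * C, fun a ha => bil_bound L (ha 0 (by omega))
      (hC _ fun k hk => ha (k + 1) (by omega))⟩

end good

theorem exists_seq_dep {α : ℕ → Type*} (Inv : ∀ n, α n → Prop) (Rel : ∀ n, α n → α (n + 1) → Prop)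
    (a₀ : α 0) (h₀ : Inv 0 a₀) (step : ∀ n a, Inv n a → ∃ b, Inv (n + 1) b ∧ Rel n a b) :
    ∃ f : ∀ n, α n, f 0 = a₀ ∧ ∀ n, Inv n (f n) ∧ Rel n (f n) (f (n + 1)) := by
  choose b hb hb' using step
  let F : ∀ n, {a : α n // Inv n a} := fun n =>
    Nat.rec ⟨a₀, h₀⟩ (fun n a => ⟨b n a.1 a.2, hb n a.1 a.2⟩) n
  exact ⟨fun n => (F n).1, rfl, fun n => ⟨(F n).2, hb' n _ (F n).2⟩⟩

/-- composition operator -/
noncomputable def cp {X Y : Type*} [TopologicalSpace X] [TopologicalSpace Y] (φ : C(X, Y)) :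
    C(Y, ℂ) →L[ℂ] C(X, ℂ) where
  toFun G := G.comp φ
  map_add' _ _ := rfl
  map_smul' _ _ := rfl
  cont := ContinuousMap.continuous_precomp φ

variable {K : Type} [TopologicalSpace K] [CompactSpace K]

/-- the ambient space of the comparison complex -/
abbrev EE (K : Type) [TopologicalSpace K] := C(K × (ℕ → K), ℂ)

/-- multiplication by `a ∘ φ` -/
noncomputable def mulBy (φ : C(K × (ℕ → K), K)) : C(K, ℂ) →L[ℂ] EE K →L[ℂ] EE K :=
  (ContinuousLinearMap.mul ℂ (EE K)).comp (cp φ)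

/-- the left action -/
noncomputable def lE : C(K, ℂ) →L[ℂ] EE K →L[ℂ] EE K := mulBy ContinuousMap.fst

/-- multiplication by `a (v n)` -/
noncomputable def mE (n : ℕ) : C(K, ℂ) →L[ℂ] EE K →L[ℂ] EE K :=
  mulBy ⟨fun z => z.2 n, by fun_prop⟩

/-- the differential -/
noncomputable def dE (n : ℕ) : EE K →L[ℂ] EE K :=
  cp ⟨fun z => (z.1, update z.2 n z.1),
    continuous_fst.prodMk (continuous_snd.update n continuous_fst)⟩

/-- the homotopy -/
noncomputable def hE (n : ℕ) : EE K →L[ℂ] EE K :=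
  cp ⟨fun z => (z.2 n, z.2), by fun_prop⟩

@[simp] theorem lE_apply (a : C(K, ℂ)) (G : EE K) (z : K × (ℕ → K)) :
    lE a G z = a z.1 * G z := rfl

@[simp] theorem mE_apply (n : ℕ) (a : C(K, ℂ)) (G : EE K) (z : K × (ℕ → K)) :
    mE n a G z = a (z.2 n) * G z := rfl

omit [CompactSpace K] in
@[simp] theorem dE_apply (n : ℕ) (G : EE K) (z : K × (ℕ → K)) :
    dE n G z = G (z.1, update z.2 n z.1) := rfl

omit [CompactSpace K] in
@[simp] theorem hE_apply (n : ℕ) (G : EE K) (z : K × (ℕ → K)) :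
    hE n G z = G (z.2 n, z.2) := rfl

/-- the predecessor of `v k` -/
def pre {K : Type} (p : K) (v : ℕ → K) : ℕ → K
  | 0 => p
  | k + 1 => v k

theorem pre_congr {K : Type} (p : K) {v v' : ℕ → K} {k : ℕ} (h : ∀ j < k, v j = v' j) :
    pre p v k = pre p v' k := by
  cases k with
  | zero => rfl
  | succ k => exact h k (by omega)

/-- the terms of the comparison complex -/
noncomputable def QQ (p : K) (n : ℕ) : Submodule ℂ (EE K) where
  carrier := {G | (∀ x (v v' : ℕ → K), (∀ k < n, v k = v' k) → G (x, v) = G (x, v')) ∧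
    ∀ k < n, ∀ x (v : ℕ → K), v k = pre p v k → G (x, v) = 0}
  add_mem' := fun {F G} hF hG => ⟨fun x v v' h => by simp [hF.1 x v v' h, hG.1 x v v' h],
    fun k hk x v h => by simp [hF.2 k hk x v h, hG.2 k hk x v h]⟩
  zero_mem' := ⟨fun _ _ _ _ => rfl, fun _ _ _ _ _ => rfl⟩
  smul_mem' := fun c {G} hG => ⟨fun x v v' h => by simp [hG.1 x v v' h],
    fun k hk x v h => by simp [hG.2 k hk x v h]⟩

omit [CompactSpace K] in
theorem isClosed_QQ (p : K) (n : ℕ) : IsClosed (QQ p n : Set (EE K)) := by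
  have : (QQ p n : Set (EE K)) =
      (⋂ x, ⋂ v : ℕ → K, ⋂ v' : ℕ → K, ⋂ _ : ∀ k < n, v k = v' k, {G | G (x, v) = G (x, v')}) ∩
      ⋂ k, ⋂ _ : k < n, ⋂ x, ⋂ v : ℕ → K, ⋂ _ : v k = pre p v k, {G | G (x, v) = 0} := by
    ext G
    simp only [mem_inter_iff, mem_iInter]
    rfl
  rw [this]
  refine IsClosed.inter ?_ ?_
  · exact isClosed_iInter fun x => isClosed_iInter fun v => isClosed_iInter fun v' =>
      isClosed_iInter fun _ => isClosed_eq (by fun_prop) (by fun_prop)
  · exact isClosed_iInter fun k => isClosed_iInter fun _ => isClosed_iInter fun x =>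
      isClosed_iInter fun v => isClosed_iInter fun _ => isClosed_eq (by fun_prop) (by fun_prop)

theorem lE_mem {p : K} {n : ℕ} (a : C(K, ℂ)) {G : EE K} (hG : G ∈ QQ p n) : lE a G ∈ QQ p n :=
  ⟨fun x v v' h => by simp [hG.1 x v v' h], fun k hk x v h => by simp [hG.2 k hk x v h]⟩

/-- cycles -/
def Cyc (p : K) (n : ℕ) (F : EE K) : Prop := ∀ v : ℕ → K, F (pre p v n, v) = 0

omit [CompactSpace K] in
theorem hE_mem {p : K} {n : ℕ} {F : EE K} (hF : F ∈ QQ p n) (hc : Cyc p n F) :
    hE n F ∈ QQ p (n + 1) := by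
  refine ⟨fun x v v' h => ?_, fun k hk x v h => ?_⟩
  · simp only [hE_apply]
    rw [h n (by omega)]
    exact hF.1 _ _ _ fun k hk => h k (by omega)
  · simp only [hE_apply]
    by_cases hkn : k = n
    · subst hkn
      rw [h]
      exact hc v
    · exact hF.2 k (by omega) _ _ h

omit [CompactSpace K] in
theorem dE_hE {p : K} {n : ℕ} {F : EE K} (hF : F ∈ QQ p n) : dE n (hE n F) = F := by
  ext ⟨x, v⟩
  simp only [dE_apply, hE_apply, update_self]
  exact hF.1 _ _ _ fun k hk => update_of_ne hk.ne _ _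

omit [CompactSpace K] in
theorem cyc_of_dE {p : K} {n : ℕ} {F : EE K} (h : dE n F = 0) : Cyc p (n + 1) F := by
  intro v
  have := congrArg (fun G : EE K => G (v n, v)) h
  simpa [pre] using this

theorem dE_lE (n : ℕ) (a : C(K, ℂ)) (G : EE K) : dE n (lE a G) = lE a (dE n G) := rfl

theorem lE_lE {a b : C(K, ℂ)} (h : a * b = 0) (G : EE K) : lE b (lE a G) = 0 := by
  ext z
  have := congrArg (fun c : C(K, ℂ) => c z.1) h
  simp only [ContinuousMap.mul_apply, ContinuousMap.zero_apply] at this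
  simp only [lE_apply, ContinuousMap.zero_apply]
  rw [← mul_assoc, mul_comm (b z.1), this, zero_mul]

/-- the lifting property that projectivity gives -/
def LiftE {P : Type} [NormedAddCommGroup P] [NormedSpace ℂ P] (ρ : C(K, ℂ) → ℂ)
    (l r : C(K, ℂ) →L[ℂ] P →L[ℂ] P) : Prop :=
  ∀ W : Submodule ℂ (P × EE K), IsClosed (W : Set (P × EE K)) →
    (∀ a, ∀ w ∈ W, (l a w.1, lE a w.2) ∈ W) → (∀ a, ∀ w ∈ W, (r a w.1, ρ a • w.2) ∈ W) →
    ∀ σ : P →L[ℂ] EE K, (∀ u, (u, σ u) ∈ W) →
    ∃ f : P →L[ℂ] EE K, (∀ u, (u, f u) ∈ W) ∧ (∀ a u, f (l a u) = lE a (f u)) ∧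
      ∀ a u, f (r a u) = ρ a • f u

/-- vanishing at `p`, consecutive products zero -/
def Orth (p : K) (n : ℕ) (a : ℕ → C(K, ℂ)) : Prop :=
  (∀ k < n, a k p = 0) ∧ ∀ k, k + 1 < n → a k * a (k + 1) = 0

omit [CompactSpace K] in
theorem Orth.mono {p : K} {n : ℕ} {a : ℕ → C(K, ℂ)} (h : Orth p (n + 1) a) : Orth p n a :=
  ⟨fun k hk => h.1 k (by omega), fun k hk => h.2 k (by omega)⟩

omit [CompactSpace K] in
theorem Orth.shift {p : K} {n : ℕ} {a : ℕ → C(K, ℂ)} (h : Orth p (n + 1) a) :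
    Orth p n (fun k => a (k + 1)) :=
  ⟨fun k hk => h.1 (k + 1) (by omega), fun k hk => h.2 (k + 1) (by omega)⟩

/-- the product cocycle -/
noncomputable def psi : ℕ → (ℕ → C(K, ℂ)) → EE K
  | 0 => fun _ => 1
  | n + 1 => fun a => mE n (a n) (psi n a)

theorem psi_apply (n : ℕ) (a : ℕ → C(K, ℂ)) (z : K × (ℕ → K)) :
    psi n a z = ∏ k ∈ Finset.range n, a k (z.2 k) := by
  induction n with
  | zero => simp [psi]
  | succ n ih => simp [psi, ih, Finset.prod_range_succ, mul_comm]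

theorem good_psi (n : ℕ) : Good n (psi (K := K) n) := by
  induction n with
  | zero => exact Good.const _
  | succ n ih => exact ih.last (mE n)

theorem psi_mem {p : K} {n : ℕ} {a : ℕ → C(K, ℂ)} (h : Orth p n a) : psi n a ∈ QQ p n := by
  refine ⟨fun x v v' hv => ?_, fun k hk x v hv => ?_⟩
  · simp only [psi_apply]
    exact Finset.prod_congr rfl fun k hk => by rw [hv k (Finset.mem_range.1 hk)]
  · simp only [psi_apply]
    cases k with
    | zero =>
      exact Finset.prod_eq_zero (Finset.mem_range.2 hk) (by rw [hv]; exact h.1 0 hk)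
    | succ k =>
      have h1 := congrArg (fun c : C(K, ℂ) => c (v k)) (h.2 k hk)
      simp only [ContinuousMap.mul_apply, ContinuousMap.zero_apply, mul_eq_zero] at h1
      rcases h1 with h1 | h1
      · exact Finset.prod_eq_zero (Finset.mem_range.2 (by omega : k < n)) h1
      · exact Finset.prod_eq_zero (Finset.mem_range.2 hk) (by rw [hv]; exact h1)

theorem dE_psi (n : ℕ) (a : ℕ → C(K, ℂ)) : dE n (psi (n + 1) a) = lE (a n) (psi n a) := by
  ext ⟨x, v⟩
  simp only [dE_apply, lE_apply, psi_apply, Finset.prod_range_succ, update_self]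
  rw [mul_comm]
  congr 1
  exact Finset.prod_congr rfl fun k hk => by rw [update_of_ne (Finset.mem_range.1 hk).ne]

end Pool.Agent.Lib.MP_4953ed_an
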