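import Pool.Agent.Lib.MP_4953ed_an.Comb

/-! The combinatorial obstruction, final form. -/

namespace Pool.Agent.Lib.MP_4953ed_an

open Set Function Filter Topology

variable {K : Type*} [TopologicalSpace K]

theorem generic (F : Filter ℕ) [F.NeBot] (hF : F ≤ atTop) (n : ℕ) (Φ : (ℕ → ℕ) → Prop)
    (hd : Dep (n + 1) Φ) (h : ∀ w : ℕ → ℕ, StrictMono w → ∀ᶠ t in F, Φ (update w n t)) :
    ∃ σ : ℕ → ℕ, StrictMono σ ∧ ∀ z, Inc (range σ) z → Φ z := by
  have hH : ∀ b : ℕ, ∀ᶠ t in F, ∀ z : ℕ → ℕ, StrictMono z → (∀ k < n, z k ≤ b) →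
      Φ (update z n t) := by
    intro b
    have h1 : ∀ w : Fin n → Fin (b + 1), ∀ᶠ t in F, ∀ z : ℕ → ℕ, StrictMono z →
        (∀ k : Fin n, z k = w k) → Φ (update z n t) := by
      intro w
      by_cases hw : ∃ z : ℕ → ℕ, StrictMono z ∧ ∀ k : Fin n, z k = w k
      · obtain ⟨z₀, hz₀, hz₀'⟩ := hw
        refine (h z₀ hz₀).mono fun t ht z _ hz => ?_
        rw [hd (update z n t) (update z₀ n t) fun k hk => ?_]
        · exact ht
        · by_cases hkn : k = n
          · subst hkn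
            simp
          · rw [update_of_ne hkn, update_of_ne hkn]
            exact (hz ⟨k, by omega⟩).trans (hz₀' ⟨k, by omega⟩).symm
      · exact Eventually.of_forall fun t z hz hz' => absurd ⟨z, hz, hz'⟩ hw
    refine (eventually_all.2 h1).mono fun t ht z hz hb => ?_
    exact ht (fun k => ⟨z k, Nat.lt_succ_of_le (hb k k.2)⟩) z hz fun _ => rfl
  obtain ⟨f, -, hf⟩ := exists_seq_of_forall_finset_exists (fun _ : ℕ => True)
    (fun x t => x < t ∧ ∀ z : ℕ → ℕ, StrictMono z → (∀ k < n, z k ≤ x) → Φ (update z n t))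
    (fun s _ => by
      obtain ⟨t, ht⟩ := ((eventually_all_finset s).2 fun x _ =>
        ((eventually_gt_atTop x).filter_mono hF).and (hH x)).exists
      exact ⟨t, trivial, ht⟩)
  have hfm : StrictMono f := fun a b hab => (hf a b hab).1
  refine ⟨fun i => f (i + 1), fun a b hab => hfm (by omega), fun z hz => ?_⟩
  obtain ⟨j, hj⟩ := hz.2 n
  have := (hf j (j + 1) (by omega)).2 z hz.1 fun k hk => by
    obtain ⟨j', hj'⟩ := hz.2 k
    have h2 : f (j' + 1) < f (j + 1) := by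
      have := hz.1 hk
      rwa [← hj, ← hj'] at this
    rw [← hj']
    exact hfm.monotone (by have := hfm.lt_iff_lt.1 h2; omega)
  simp only at hj
  rwa [hj, update_eq_self] at this

theorem ramsey_vec {n r : ℕ} (c : (ℕ → ℕ) → Fin n → ℝ) (hd : Dep r c) {B : ℝ}
    (hB : ∀ y m, |c y m| ≤ B) {ε : ℝ} (hε : 0 < ε) {S : Set ℕ} (hS : S.Infinite) :
    ∃ S' ⊆ S, S'.Infinite ∧ ∃ α : Fin n → ℝ, ∀ y, Inc S' y → ∀ m, |c y m - α m| ≤ ε := by
  have hc : IsCompact (Icc (fun _ : Fin n => -B) (fun _ => B)) := isCompact_Icc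
  obtain ⟨t, ht, hcov⟩ := Metric.totallyBounded_iff.1 hc.totallyBounded ε hε
  have hex : ∀ y, ∃ a : t, dist (c y) (a : Fin n → ℝ) < ε := by
    intro y
    have := hcov (show c y ∈ Icc (fun _ : Fin n => -B) (fun _ => B) from
      ⟨fun m => (abs_le.1 (hB y m)).1, fun m => (abs_le.1 (hB y m)).2⟩)
    simp only [mem_iUnion, exists_prop] at this
    obtain ⟨a, ha, ha'⟩ := this
    exact ⟨⟨a, ha⟩, ha'⟩
  have : Nonempty t := ⟨(hex id).choose⟩
  have : Finite t := ht
  let pick : (Fin n → ℝ) → t := fun x =>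
    Classical.epsilon fun a : t => dist x (a : Fin n → ℝ) < ε
  obtain ⟨S', h1, h2, a, h3⟩ := ramsey r (fun y => pick (c y))
    (fun y y' hy => congrArg pick (hd y y' hy)) S hS
  refine ⟨S', h1, h2, a, fun y hy m => ?_⟩
  have h4 : dist (c y) (pick (c y) : Fin n → ℝ) < ε := Classical.epsilon_spec (hex y)
  rw [h3 y hy] at h4
  exact le_of_lt (lt_of_le_of_lt (dist_le_pi_dist (c y) a m) h4)

theorem exists_half (𝒰 : Ultrafilter ℕ) {S : Set ℕ} (hS : S.Infinite) :
    ∃ e : ℕ → ℕ, StrictMono e ∧ (∀ i, e i ∈ S) ∧ range e ∉ 𝒰 := by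
  obtain ⟨ρ, hρ, hρS⟩ := extraction_of_frequently_atTop
    (P := fun t => t ∈ S) (Nat.frequently_atTop_iff_infinite.2 hS)
  by_cases h : range (fun i => ρ (2 * i)) ∈ 𝒰
  · refine ⟨fun i => ρ (2 * i + 1), fun a b hab => hρ (by omega), fun i => hρS _, fun h' => ?_⟩
    obtain ⟨_, ⟨a, rfl⟩, ⟨b, hb⟩⟩ := 𝒰.nonempty_of_mem (inter_mem h h')
    have := hρ.injective hb
    omega
  · exact ⟨fun i => ρ (2 * i), fun a b hab => hρ (by omega), fun i => hρS _, h⟩

/-- small sets, consecutive ones disjoint -/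
def OrthT (𝒰 : Ultrafilter ℕ) (n : ℕ) (T : ℕ → Set ℕ) : Prop :=
  (∀ k < n, T k ∉ 𝒰) ∧ ∀ k, k + 1 < n → Disjoint (T k) (T (k + 1))

theorem GData.pull {n : ℕ} {B : ℝ} {g : (ℕ → Set ℕ) → (ℕ → K) → ℝ} (hg : GData n B g)
    {e : ℕ → ℕ} (he : Injective e) : GData n B (fun T => g (fun k => e '' T k)) where
  bdd _ _ := hg.bdd _ _
  cont _ := hg.cont _
  depT _ _ h := hg.depT _ _ fun k hk => by rw [h k hk]
  depv _ := hg.depv _
  add k hk T U V hUV v := by
    have : ∀ W : Set ℕ, (fun j => e '' update T k W j) = update (fun j => e '' T j) k (e '' W) := by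
      intro W
      funext j
      exact apply_update (fun _ A => e '' A) T k W j
    simp only [this, image_union]
    exact hg.add k hk _ _ _ ((disjoint_image_iff he).2 hUV) v

theorem no_g [CompactSpace K] (ι : ℕ → K) (𝒰 : Ultrafilter ℕ) (hfree : (𝒰 : Filter ℕ) ≤ atTop)
    (p : K) (hp : Tendsto ι 𝒰 (𝓝 p)) {n : ℕ} {B : ℝ} {g : (ℕ → Set ℕ) → (ℕ → K) → ℝ}
    (hg : GData n B g)
    (h0 : ∀ T, OrthT 𝒰 n T → ∀ v : ℕ → K, v 0 = p → g T v = 0)
    (hk : ∀ T, OrthT 𝒰 n T → ∀ k < n, ∀ v : ℕ → K, v k = v (k + 1) → g T v = 0)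
    (hn : ∀ y : ℕ → ℕ, OrthT 𝒰 n (fun k => {y k}) → ∀ v : ℕ → K, (∀ k < n, v k = ι (y k)) →
      v n = p → g (fun k => {y k}) v = 1) : False := by
  obtain ⟨ε, hε, hεn⟩ : ∃ ε : ℝ, 0 < ε ∧ ((n : ℝ) * (n + 3) + 2 * n + 6) * ε < 1 := by
    refine ⟨1 / ((n : ℝ) * (n + 3) + 2 * n + 7), by positivity, ?_⟩
    rw [mul_one_div, div_lt_one (by positivity)]
    linarith
  let c : ℕ → (ℕ → ℕ) → ℝ := fun m y => g (om m y) (ι ∘ y)
  have hcd : ∀ m, Dep (n + 1) (c m) := by
    intro m y y' hy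
    have e1 : g (om m y) = g (om m y') := hg.depT _ _ fun k hk => by
      simp only [om]
      rw [hy _ (by split_ifs <;> omega)]
    simp only [c, e1]
    exact hg.depv _ _ _ fun k hk => congrArg ι (hy k (by omega))
  -- the generic sequence
  obtain ⟨σ, hσ, hgen⟩ := generic 𝒰 hfree n
    (fun z => |c n z - 1| ≤ ε ∧ |c 0 (z ∘ rot n)| ≤ ε)
    (fun z z' hz => by
      beta_reduce
      rw [hcd n z z' hz, hcd 0 (z ∘ rot n) (z' ∘ rot n) fun k hk =>
        hz _ (Nat.lt_succ_of_le (rot_le (by omega)))])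
    (fun w hw => by
      have horth : OrthT 𝒰 n (fun k => {w k}) := by
        refine ⟨fun k _ hh => ?_, fun k _ => by simpa using (hw (Nat.lt_succ_self k)).ne⟩
        obtain ⟨t, ht, ht'⟩ := 𝒰.nonempty_of_mem
          (inter_mem hh (hfree (eventually_gt_atTop (w k))))
        have h1 : t = w k := ht
        have h2 : w k < t := ht'
        omega
      have hlim : Tendsto (fun t => ι ∘ update w n t) 𝒰 (𝓝 (update (ι ∘ w) n p)) := by
        rw [tendsto_pi_nhds]
        intro k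
        by_cases hkn : k = n
        · subst hkn
          simpa using hp
        · simp only [comp_apply, update_of_ne hkn]
          exact tendsto_const_nhds
      have hlim' : Tendsto (fun t => ι ∘ update w n t ∘ rot n) 𝒰
          (𝓝 (update (ι ∘ w) n p ∘ rot n)) := by
        rw [tendsto_pi_nhds] at hlim ⊢
        exact fun k => hlim (rot n k)
      have e1 : ∀ t, g (om n (update w n t)) = g (fun k => {w k}) := fun t =>
        hg.depT _ _ fun k hk => by simp [om, hk, update_of_ne hk.ne]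
      have e2 : ∀ t, g (om 0 (update w n t ∘ rot n)) = g (fun k => {w k}) := fun t =>
        hg.depT _ _ fun k hk => by simp [om, rot_succ hk, update_of_ne hk.ne]
      have h1 := ((hg.cont (fun k => {w k})).tendsto _).comp hlim
      have h2 := ((hg.cont (fun k => {w k})).tendsto _).comp hlim'
      rw [hn w horth _ (fun k hk => by simp [update_of_ne hk.ne]) (by simp)] at h1
      rw [h0 _ horth _ (by simp [rot])] at h2
      filter_upwards [h1.eventually (Metric.closedBall_mem_nhds _ hε),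
        h2.eventually (Metric.closedBall_mem_nhds _ hε)] with t ht1 ht2
      simp only [c, e1, e2]
      exact ⟨ht1, by simpa using ht2⟩)
  obtain ⟨S, hSσ, hS, α, hα⟩ := ramsey_vec (fun y (m : Fin (n + 1)) => c m y)
    (fun y y' hy => funext fun m => hcd m y y' hy) (B := B) (fun _ _ => hg.bdd _ _) hε
    (infinite_range_of_injective hσ.injective)
  obtain ⟨e, he, heS, he𝒰⟩ := exists_half 𝒰 hS
  have hg' := hg.pull he.injective
  have hom : ∀ m z, (fun k => e '' om m z k) = om m (e ∘ z) := fun m z => by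
    funext k
    simp [om]
  have hinc : ∀ z, StrictMono z → Inc S (e ∘ z) := fun z hz => ⟨he.comp hz, fun k => heS _⟩
  have hA : ∀ m (hm : m < n), |α ⟨m, by omega⟩ + α ⟨m + 1, by omega⟩| ≤ (n + 3) * ε := by
    intro m hm
    obtain ⟨z, hz, h1⟩ := stageA hg' (ι ∘ e) (fun T hT => hk _ ⟨fun k _ hh =>
      he𝒰 (mem_of_superset hh (image_subset_range _ _)), fun k hk =>
        (disjoint_image_iff he.injective).2 (hT k hk)⟩) hε hm
    simp only [hom] at h1
    have h2 := hα _ (hinc z hz) ⟨m, by omega⟩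
    have h3 := hα _ (hinc z hz) ⟨m + 1, by omega⟩
    change |c m (e ∘ z) + c (m + 1) (e ∘ z)| ≤ _ at h1
    simp only at h2 h3
    rw [abs_le] at h1 h2 h3 ⊢
    constructor <;> linarith [h1.1, h1.2, h2.1, h2.2, h3.1, h3.2]
  have hB : |α 0| ≤ (2 * n + 4) * ε := by
    obtain ⟨y, z, hy, hz, h1⟩ := stageB hg' (ι ∘ e) hε
    simp only [hom] at h1
    have h2 := hα _ (hinc y hy) 0
    have h3 := (hgen _ ((hinc z hz).mono hSσ)).2
    change |c 0 (e ∘ y) - c 0 ((e ∘ z) ∘ rot n)| ≤ _ at h1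
    change |c 0 (e ∘ y) - α 0| ≤ _ at h2
    rw [abs_le] at h1 h2 h3 ⊢
    constructor <;> linarith [h1.1, h1.2, h2.1, h2.2, h3.1, h3.2]
  have hC : ∀ m (hm : m ≤ n), |α ⟨m, by omega⟩| ≤ (m * (n + 3) + 2 * n + 4) * ε := by
    intro m
    induction m with
    | zero =>
      intro _
      simpa using hB
    | succ m ih =>
      intro hm
      have h1 := ih (by omega)
      have h2 := hA m (by omega)
      push_cast
      rw [abs_le] at h1 h2 ⊢
      constructor <;> nlinarith [h1.1, h1.2, h2.1, h2.2]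
  have h1 := hC n le_rfl
  have h2 := hα _ (hinc id strictMono_id) ⟨n, by omega⟩
  have h3 := (hgen _ ((hinc id strictMono_id).mono hSσ)).1
  simp only at h2
  rw [abs_le] at h1 h2 h3
  nlinarith [h1.1, h1.2, h2.1, h2.2, h3.1, h3.2]

end Pool.Agent.Lib.MP_4953ed_an
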