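import Pool.Agent.Lib.MP_4953ed_an.Core

/-! Restricted actions and the indicator functions on the Stone-Cech compactification. -/

namespace Pool.Agent.Lib.MP_4953ed_an

open Set Function Filter Topology

section restr

variable {A : Type*} [NormedAddCommGroup A] [NormedSpace ℂ A]
  {P : Type*} [NormedAddCommGroup P] [NormedSpace ℂ P]
  {E : Type*} [NormedAddCommGroup E] [NormedSpace ℂ E]

/-- the diagonal action on an invariant subspace of a product -/
noncomputable def restrAct (l : A →L[ℂ] P →L[ℂ] P) (m : A →L[ℂ] E →L[ℂ] E)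
    (W : Submodule ℂ (P × E)) (h : ∀ a, ∀ w ∈ W, (l a w.1, m a w.2) ∈ W) :
    A →L[ℂ] W →L[ℂ] W :=
  LinearMap.mkContinuous₂
    (LinearMap.mk₂ ℂ (fun a (w : W) => (⟨(l a w.1.1, m a w.1.2), h a w.1 w.2⟩ : W))
      (fun _ _ _ => by ext <;> simp) (fun _ _ _ => by ext <;> simp)
      (fun _ _ _ => by ext <;> simp) (fun _ _ _ => by ext <;> simp))
    (‖l‖ + ‖m‖) (fun a w => by
      change ‖(l a w.1.1, m a w.1.2)‖ ≤ (‖l‖ + ‖m‖) * ‖a‖ * ‖w.1‖
      have h1 : ‖l a w.1.1‖ ≤ ‖l‖ * ‖a‖ * ‖w.1‖ := (l.le_opNorm₂ a _).trans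
        (mul_le_mul_of_nonneg_left (norm_fst_le _) (mul_nonneg l.opNorm_nonneg (norm_nonneg _)))
      have h2 : ‖m a w.1.2‖ ≤ ‖m‖ * ‖a‖ * ‖w.1‖ := (m.le_opNorm₂ a _).trans
        (mul_le_mul_of_nonneg_left (norm_snd_le _) (mul_nonneg m.opNorm_nonneg (norm_nonneg _)))
      have h3 : 0 ≤ ‖l‖ * ‖a‖ * ‖w.1‖ :=
        mul_nonneg (mul_nonneg l.opNorm_nonneg (norm_nonneg _)) (norm_nonneg _)
      have h4 : 0 ≤ ‖m‖ * ‖a‖ * ‖w.1‖ :=
        mul_nonneg (mul_nonneg m.opNorm_nonneg (norm_nonneg _)) (norm_nonneg _)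
      rw [Prod.norm_def, max_le_iff]
      constructor <;> simp only <;> linarith)

theorem restrAct_apply (l : A →L[ℂ] P →L[ℂ] P) (m : A →L[ℂ] E →L[ℂ] E)
    (W : Submodule ℂ (P × E)) (h : ∀ a, ∀ w ∈ W, (l a w.1, m a w.2) ∈ W) (a : A) (w : W) :
    (restrAct l m W h a w : P × E) = (l a w.1.1, m a w.1.2) := rfl

end restr

theorem exists_chi : ∃ (𝒰 : Ultrafilter ℕ) (p : StoneCech ℕ) (χ : Set ℕ → C(StoneCech ℕ, ℂ)),
    (𝒰 : Filter ℕ) ≤ atTop ∧ Tendsto stoneCechUnit 𝒰 (𝓝 p) ∧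
    (∀ t, χ {t} (stoneCechUnit t) = 1) ∧ (∀ T, T ∉ 𝒰 → χ T p = 0) ∧
    (∀ U V, Disjoint U V → χ (U ∪ V) = χ U + χ V) ∧ (∀ U V, Disjoint U V → χ U * χ V = 0) ∧
    ∀ T, ‖χ T‖ ≤ 1 := by
  classical
  let 𝒰 : Ultrafilter ℕ := Ultrafilter.of atTop
  let p : StoneCech ℕ := (𝒰.map stoneCechUnit).lim
  have hp : Tendsto stoneCechUnit 𝒰 (𝓝 p) := (𝒰.map stoneCechUnit).le_nhds_lim
  let b : Set ℕ → StoneCech ℕ → Bool := fun T =>
    stoneCechExtend (continuous_of_discreteTopology (f := fun t : ℕ => decide (t ∈ T)))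
  let χ : Set ℕ → C(StoneCech ℕ, ℂ) := fun T =>
    ⟨fun x => if b T x then 1 else 0,
      (continuous_of_discreteTopology (f := fun c : Bool => if c then (1 : ℂ) else 0)).comp
        (continuous_stoneCechExtend _)⟩
  have hχ : ∀ T t, χ T (stoneCechUnit t) = if t ∈ T then 1 else 0 := by
    intro T t
    have : b T (stoneCechUnit t) = decide (t ∈ T) := congrFun (stoneCechExtend_extends _) t
    simp [χ, this]
  have hext : ∀ F G : C(StoneCech ℕ, ℂ), (∀ t, F (stoneCechUnit t) = G (stoneCechUnit t)) →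
      F = G := fun F G h =>
    DFunLike.coe_injective (denseRange_stoneCechUnit.equalizer F.continuous G.continuous
      (funext h))
  refine ⟨𝒰, p, χ, Ultrafilter.of_le _, hp, fun t => by simp [hχ], fun T hT => ?_,
    fun U V hUV => hext _ _ fun t => ?_, fun U V hUV => hext _ _ fun t => ?_, fun T => ?_⟩
  · have h1 := ((χ T).continuous.tendsto p).comp hp
    refine tendsto_nhds_unique h1 (tendsto_const_nhds.congr' ?_)
    filter_upwards [Ultrafilter.compl_mem_iff_notMem.2 hT] with t ht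
    have ht' : t ∉ T := ht
    simp [hχ, ht']
  · have : t ∈ U → t ∉ V := fun h => Set.disjoint_left.1 hUV h
    by_cases h1 : t ∈ U <;> by_cases h2 : t ∈ V <;> simp_all
  · have : t ∈ U → t ∉ V := fun h => Set.disjoint_left.1 hUV h
    by_cases h1 : t ∈ U <;> by_cases h2 : t ∈ V <;> simp_all
  · rw [ContinuousMap.norm_le _ zero_le_one]
    intro x
    simp only [χ, ContinuousMap.coe_mk]
    split_ifs <;> simp

theorem ResData.not_subsingleton_stoneCech : ∃ p : StoneCech ℕ, ∀ (D : ResData (StoneCech ℕ) p)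
    (N : ℕ), ¬ Subsingleton (D.P (N + 1)) := by
  obtain ⟨𝒰, p, χ, h1, h2, h3, h4, h5, h6, h7⟩ := exists_chi
  exact ⟨p, fun D N => D.not_subsingleton stoneCechUnit 𝒰 h1 h2 χ h3 h4 h5 h6 h7 N⟩

end Pool.Agent.Lib.MP_4953ed_an
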